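import Mathlib

set_option autoImplicit false

namespace Pool.Agent.H.Gap

open Matrix Finset

variable {n : ℕ}

def Tri (A : Matrix (Fin n) (Fin n) ℂ) : Prop :=
  ∀ u v : Fin n, (u.val + 1 < v.val ∨ v.val + 1 < u.val) → A u v = 0

abbrev T (n : ℕ) := {p : Fin n × Fin n // p.2 < p.1}

noncomputable def Hz (A : Matrix (Fin n) (Fin n) ℂ) (z : ℂ) : Matrix (Fin n) (Fin n) ℂ :=
  A + diagonal (fun u => z * ((u.val : ℂ) / n))

def KK (A : Matrix (Fin n) (Fin n) ℂ) : Matrix (T n) (T n) ℂ :=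
  Matrix.of fun p q => (if p.1.2 = q.1.2 then A p.1.1 q.1.1 else 0) -
    (if p.1.1 = q.1.1 then A q.1.2 p.1.2 else 0)

noncomputable def rho (p : T n) : ℝ := ((p.1.1.val : ℝ) - p.1.2.val) / n

lemma rho_ge (p : T n) : 1 / (n : ℝ) ≤ rho p := by
  have h : p.1.2.val + 1 ≤ p.1.1.val := p.2
  have h' : (p.1.2.val : ℝ) + 1 ≤ p.1.1.val := by exact_mod_cast h
  unfold rho
  gcongr
  linarith

lemma npos (p : T n) : (0 : ℝ) < n := by
  have := p.1.1.pos
  exact_mod_cast this

lemma rho_pos (p : T n) : 0 < rho p := lt_of_lt_of_le (by have := npos p; positivity) (rho_ge p)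

def res (Y : Matrix (Fin n) (Fin n) ℂ) : T n → ℂ := fun p => Y p.1.1 p.1.2

lemma sumT (f : Fin n → Fin n → ℂ) :
    ∑ q : T n, f q.1.1 q.1.2 = ∑ u, ∑ v, if v < u then f u v else 0 := by
  rw [← Fintype.sum_prod_type' (fun u v => if v < u then f u v else 0), ← Finset.sum_filter]
  exact (Finset.sum_subtype (p := fun p : Fin n × Fin n => p.2 < p.1)
    (univ.filter fun p : Fin n × Fin n => p.2 < p.1) (by simp) (fun p => f p.1 p.2)).symm

lemma KK_herm {A : Matrix (Fin n) (Fin n) ℂ} (hA : A.IsHermitian) : (KK A).IsHermitian := by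
  ext p q
  simp only [KK, conjTranspose_apply, of_apply, star_sub]
  congr 1
  · by_cases h : p.1.2 = q.1.2
    · rw [if_pos h, if_pos h.symm, hA.apply]
    · rw [if_neg h, if_neg (Ne.symm h), star_zero]
  · by_cases h : p.1.1 = q.1.1
    · rw [if_pos h, if_pos h.symm, hA.apply]
    · rw [if_neg h, if_neg (Ne.symm h), star_zero]

lemma KK_mulVec {A : Matrix (Fin n) (Fin n) ℂ} (hT : Tri A) (Y : Matrix (Fin n) (Fin n) ℂ)
    (hY : ∀ u, Y u u = 0) (p : T n) :
    (KK A *ᵥ res Y) p = (A * Y - Y * A) p.1.1 p.1.2 := by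
  obtain ⟨⟨u, v⟩, huv⟩ := p
  have huv' : v.val < u.val := huv
  simp only [mulVec, dotProduct, KK, of_apply, res, Matrix.sub_apply, Matrix.mul_apply, sub_mul,
    Finset.sum_sub_distrib]
  rw [sumT (fun a b => (if v = b then A u a else 0) * Y a b),
    sumT (fun a b => (if u = a then A b v else 0) * Y a b)]
  congr 1
  · refine Finset.sum_congr rfl fun a _ => ?_
    rw [Finset.sum_eq_single v]
    · by_cases h : v < a
      · simp [h]
      · rw [if_neg h]
        rcases eq_or_lt_of_le (not_lt.mp h) with h1 | h1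
        · rw [h1, hY, mul_zero]
        · have : a.val < v.val := h1
          rw [hT u a (Or.inr (by omega)), zero_mul]
    · intro b _ hb
      simp [Ne.symm hb]
    · simp
  · rw [Finset.sum_eq_single u]
    · refine Finset.sum_congr rfl fun b _ => ?_
      by_cases h : b < u
      · simp [h, mul_comm]
      · rw [if_neg h]
        rcases eq_or_lt_of_le (not_lt.mp h) with h1 | h1
        · rw [← h1, hY, zero_mul]
        · have : u.val < b.val := h1
          rw [hT b v (Or.inr (by omega)), mul_zero]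
    · intro a _ ha
      simp [Ne.symm ha]
    · simp

lemma comm_Hz {A : Matrix (Fin n) (Fin n) ℂ} (hT : Tri A) (z : ℂ) (Y : Matrix (Fin n) (Fin n) ℂ)
    (hY : ∀ u, Y u u = 0) (p : T n) :
    (Hz A z * Y - Y * Hz A z) p.1.1 p.1.2 = (KK A *ᵥ res Y) p + z * rho p * res Y p := by
  rw [KK_mulVec hT Y hY]
  simp only [Hz, add_mul, mul_add, Matrix.sub_apply, Matrix.add_apply, diagonal_mul, mul_diagonal, res, rho]
  push_cast
  ring

lemma res_zero {A : Matrix (Fin n) (Fin n) ℂ} (hA : A.IsHermitian) (hT : Tri A) {z : ℂ}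
    (hz : z.im ≠ 0) (Y : Matrix (Fin n) (Fin n) ℂ) (hY : ∀ u, Y u u = 0)
    (hc : Hz A z * Y = Y * Hz A z) : res Y = 0 := by
  set x := res Y with hx
  have h1 : ∀ p, (KK A *ᵥ x) p + z * rho p * x p = 0 := fun p => by
    rw [← comm_Hz hT z Y hY p, hc, sub_self]; rfl
  have h2 : (star x ⬝ᵥ (KK A *ᵥ x)).im = 0 := by
    have := (KK_herm hA).im_star_dotProduct_mulVec_self x
    simpa using this
  have h3 : star x ⬝ᵥ (KK A *ᵥ x) = -(z * ((∑ p, rho p * Complex.normSq (x p) : ℝ) : ℂ)) := by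
    simp only [dotProduct, Pi.star_apply]
    push_cast
    rw [Finset.mul_sum, ← Finset.sum_neg_distrib]
    refine Finset.sum_congr rfl fun p _ => ?_
    have : (KK A *ᵥ x) p = -(z * rho p * x p) := eq_neg_of_add_eq_zero_left (h1 p)
    rw [this, Complex.normSq_eq_conj_mul_self]
    simp only [RCLike.star_def]
    ring
  rw [h3] at h2
  simp only [Complex.neg_im, Complex.mul_im, Complex.ofReal_im, mul_zero, Complex.ofReal_re,
    zero_add, neg_eq_zero, mul_eq_zero, hz, false_or] at h2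
  rw [Finset.sum_eq_zero_iff_of_nonneg
    (fun p _ => mul_nonneg (rho_pos p).le (Complex.normSq_nonneg _))] at h2
  funext p
  have := h2 p (mem_univ _)
  rcases mul_eq_zero.mp this with h | h
  · exact absurd h (rho_pos p).ne'
  · exact Complex.normSq_eq_zero.mp h

lemma Tri.transpose {A : Matrix (Fin n) (Fin n) ℂ} (hT : Tri A) : Tri Aᵀ :=
  fun u v h => hT v u h.symm

lemma Hz_transpose (A : Matrix (Fin n) (Fin n) ℂ) (z : ℂ) : (Hz A z)ᵀ = Hz Aᵀ z := by
  simp [Hz, transpose_add]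

lemma comm_zero {A : Matrix (Fin n) (Fin n) ℂ} (hA : A.IsHermitian) (hT : Tri A) {z : ℂ}
    (hz : z.im ≠ 0) (Y : Matrix (Fin n) (Fin n) ℂ) (hY : ∀ u, Y u u = 0)
    (hc : Hz A z * Y = Y * Hz A z) : Y = 0 := by
  have h1 := res_zero hA hT hz Y hY hc
  have h2 := res_zero hA.transpose hT.transpose hz Yᵀ (fun u => hY u) (by
    rw [← Hz_transpose, ← transpose_mul, ← transpose_mul, hc])
  ext u v
  rcases lt_trichotomy u v with h | h | h
  · exact congrFun h2 ⟨(v, u), h⟩
  · rw [h, hY]; rfl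
  · exact congrFun h1 ⟨(u, v), h⟩

/-- the diagonal twist -/
lemma exists_twist {A : Matrix (Fin n) (Fin n) ℂ} (hA : A.IsHermitian) (hT : Tri A) :
    ∃ d : Fin n → ℂ, (∀ u, ‖d u‖ = 1) ∧ ∀ u v, d u * A v u = A u v * d v := by
  classical
  let b : ℕ → ℂ := fun k => if h : k + 1 < n then A ⟨k, by omega⟩ ⟨k + 1, h⟩ else 0
  let c : ℕ → ℂ := fun k => if b k = 0 then 1 else star (b k) / b k
  have hc : ∀ k, ‖c k‖ = 1 := fun k => by
    by_cases h : b k = 0
    · simp [c, h]
    · simp [c, h]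
  have hcb : ∀ k, c k * b k = star (b k) := fun k => by
    by_cases h : b k = 0
    · simp [c, h]
    · simp only [c, if_neg h]; field_simp
  refine ⟨fun u => ∏ k ∈ range u.val, c k, fun u => by simp [hc], fun u v => ?_⟩
  rcases lt_trichotomy u.val v.val with h | h | h
  · rcases eq_or_lt_of_le (Nat.succ_le_of_lt h) with h1 | h1
    · have hv : v = ⟨u.val + 1, by omega⟩ := Fin.ext h1.symm
      have hb : b u.val = A u v := by
        simp only [b]; rw [dif_pos (by omega)]; exact congrArg (A u) hv.symm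
      have : (v : ℕ) = u.val + 1 := h1.symm
      simp only [this, Finset.prod_range_succ]
      rw [← hA.apply v u, ← hb, ← hcb]; ring
    · rw [hT u v (Or.inl h1), hT v u (Or.inr h1)]; simp
  · have : u = v := Fin.ext h
    rw [this, mul_comm]
  · rcases eq_or_lt_of_le (Nat.succ_le_of_lt h) with h1 | h1
    · have hu : u = ⟨v.val + 1, by omega⟩ := Fin.ext h1.symm
      have hb : b v.val = A v u := by
        simp only [b]; rw [dif_pos (by omega)]; exact congrArg (A v) hu.symm
      have : (u : ℕ) = v.val + 1 := h1.symm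
      simp only [this, Finset.prod_range_succ]
      rw [← hA.apply u v, ← hb, ← hcb]; ring
    · rw [hT u v (Or.inr h1), hT v u (Or.inl h1)]; simp

lemma twist_Hz {A : Matrix (Fin n) (Fin n) ℂ} {d : Fin n → ℂ}
    (h : ∀ u v, d u * A v u = A u v * d v) (z : ℂ) (u v : Fin n) :
    d u * Hz A z v u = Hz A z u v * d v := by
  by_cases huv : u = v
  · rw [huv, mul_comm]
  · simp only [Hz, Matrix.add_apply, diagonal_apply_ne _ huv, diagonal_apply_ne _ (Ne.symm huv), add_zero, h]

noncomputable def wedge (d ψ φ : Fin n → ℂ) : Matrix (Fin n) (Fin n) ℂ :=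
  Matrix.of fun u v => (ψ u * φ v - φ u * ψ v) / d v

lemma wedge_diag (d ψ φ : Fin n → ℂ) (u : Fin n) : wedge d ψ φ u u = 0 := by
  simp [wedge, mul_comm]

lemma wedge_comm {H : Matrix (Fin n) (Fin n) ℂ} {d : Fin n → ℂ} (hd : ∀ u, ‖d u‖ = 1)
    (h : ∀ u v, d u * H v u = H u v * d v) {ψ φ : Fin n → ℂ} {a b : ℂ}
    (hψ : H *ᵥ ψ = a • ψ) (hφ : H *ᵥ φ = b • φ) (u v : Fin n) :
    (H * wedge d ψ φ - wedge d ψ φ * H) u v = (a - b) * (ψ u * φ v + φ u * ψ v) / d v := by
  have hd0 : ∀ u, d u ≠ 0 := fun u h0 => by simpa [h0] using hd u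
  have e1 : ∀ u, ∑ w, H u w * ψ w = a * ψ u := fun u => congrFun hψ u
  have e2 : ∀ u, ∑ w, H u w * φ w = b * φ u := fun u => congrFun hφ u
  have l1 : ∑ w, H u w * ((ψ w * φ v - φ w * ψ v) / d v) =
      ((∑ w, H u w * ψ w) * φ v - (∑ w, H u w * φ w) * ψ v) / d v := by
    rw [Finset.sum_mul, Finset.sum_mul, ← Finset.sum_sub_distrib, Finset.sum_div]
    exact Finset.sum_congr rfl fun w _ => by ring
  have l2 : ∑ w, (ψ u * φ w - φ u * ψ w) / d w * H w v =
      (ψ u * (∑ w, H v w * φ w) - φ u * (∑ w, H v w * ψ w)) / d v := by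
    rw [Finset.mul_sum, Finset.mul_sum, ← Finset.sum_sub_distrib, Finset.sum_div]
    refine Finset.sum_congr rfl fun w _ => ?_
    have := h v w
    have h1 := hd0 v
    have h2 := hd0 w
    have : H w v = H v w * d w / d v := by rw [← this]; field_simp
    rw [this]; field_simp
  simp only [Matrix.sub_apply, Matrix.mul_apply, wedge, of_apply]
  rw [l1, l2, e1, e1, e2, e2]
  ring

end Pool.Agent.H.Gap
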