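import Mathlib
import Pool.Agent.H.MP_26b317_lc.A

set_option autoImplicit false

namespace Pool.Agent.H.Gap

open Matrix Finset Polynomial

variable {n : ℕ}

noncomputable def MM (H : Matrix (Fin n) (Fin n) ℂ) : Matrix (Fin n) (Fin n) ℂ :=
  Matrix.of fun l k => (H ^ k.val) l l

lemma aeval_eq (H : Matrix (Fin n) (Fin n) ℂ) (f : ℂ[X]) (hf : f.natDegree < n) :
    aeval H f = ∑ k : Fin n, f.coeff k • H ^ k.val := by
  rw [aeval_eq_sum_range' hf, Finset.sum_range]

lemma MM_mulVec (H : Matrix (Fin n) (Fin n) ℂ) (c : Fin n → ℂ) (l : Fin n) :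
    (MM H *ᵥ c) l = (∑ k : Fin n, c k • H ^ k.val) l l := by
  simp [mulVec, dotProduct, MM, Matrix.sum_apply, mul_comm]

lemma det_MM_zero (H : Matrix (Fin n) (Fin n) ℂ) (f : ℂ[X]) (hf : f.natDegree < n) (h0 : f ≠ 0)
    (hd : ∀ l, aeval H f l l = 0) : (MM H).det = 0 := by
  rw [← exists_mulVec_eq_zero_iff]
  refine ⟨fun k => f.coeff k, fun h => h0 ?_, funext fun l => ?_⟩
  · have := congrFun h ⟨f.natDegree, hf⟩
    exact leadingCoeff_eq_zero.mp this
  · rw [MM_mulVec, ← aeval_eq H f hf]; exact hd l

lemma finrank_ker_comp {V : Type} [AddCommGroup V] [Module ℂ V] [FiniteDimensional ℂ V]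
    (f g : V →ₗ[ℂ] V) : Module.finrank ℂ (LinearMap.ker (f ∘ₗ g)) ≤
      Module.finrank ℂ (LinearMap.ker f) + Module.finrank ℂ (LinearMap.ker g) := by
  let r : LinearMap.ker (f ∘ₗ g) →ₗ[ℂ] LinearMap.ker f :=
    LinearMap.codRestrict _ (g ∘ₗ (LinearMap.ker (f ∘ₗ g)).subtype) (fun x => x.2)
  have h1 := LinearMap.finrank_range_add_finrank_ker r
  have h2 : Module.finrank ℂ (LinearMap.range r) ≤ Module.finrank ℂ (LinearMap.ker f) :=
    Submodule.finrank_le _
  let s : LinearMap.ker r →ₗ[ℂ] LinearMap.ker g :=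
    LinearMap.codRestrict _ ((LinearMap.ker (f ∘ₗ g)).subtype ∘ₗ (LinearMap.ker r).subtype)
      (fun x => by
        have := congrArg Subtype.val (LinearMap.mem_ker.mp x.2)
        exact this)
  have h3 : Module.finrank ℂ (LinearMap.ker r) ≤ Module.finrank ℂ (LinearMap.ker g) :=
    LinearMap.finrank_le_finrank_of_injective (f := s) (fun x y h => by
      have := congrArg Subtype.val h
      exact Subtype.ext (Subtype.ext this))
  omega

lemma finrank_ker_aeval (H : Matrix (Fin n) (Fin n) ℂ)
    (h1 : ∀ z : ℂ, Module.finrank ℂ (LinearMap.ker (toLin' (H - z • 1))) ≤ 1) (m : ℕ) :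
    ∀ f : ℂ[X], f ≠ 0 → f.natDegree ≤ m →
      Module.finrank ℂ (LinearMap.ker (toLin' (aeval H f))) ≤ m := by
  induction m with
  | zero =>
    intro f h0 hf
    rw [eq_C_of_natDegree_le_zero hf] at h0 ⊢
    have hc : f.coeff 0 ≠ 0 := fun h => h0 (by rw [h, map_zero])
    have : LinearMap.ker (toLin' (aeval H (C (f.coeff 0)))) = ⊥ := by
      rw [LinearMap.ker_eq_bot']
      intro x hx
      rw [aeval_C, Algebra.algebraMap_eq_smul_one, toLin'_apply, smul_mulVec, one_mulVec] at hx
      exact (smul_eq_zero.mp hx).resolve_left hc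
    rw [this]; simp
  | succ m ih =>
    intro f h0 hf
    by_cases hm : f.natDegree ≤ m
    · exact (ih f h0 hm).trans (Nat.le_succ m)
    · have hdeg : f.degree ≠ 0 := fun h => by
        have := natDegree_eq_zero_iff_degree_le_zero.mpr h.le
        omega
      obtain ⟨z, hz⟩ := IsAlgClosed.exists_root f hdeg
      obtain ⟨g, hg⟩ := dvd_iff_isRoot.mpr hz
      have hg0 : g ≠ 0 := fun h => h0 (by rw [hg, h, mul_zero])
      have hdg : g.natDegree ≤ m := by
        have := natDegree_mul (X_sub_C_ne_zero z) hg0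
        rw [← hg, natDegree_X_sub_C] at this
        omega
      have e : toLin' (aeval H f) = toLin' (H - z • 1) ∘ₗ toLin' (aeval H g) := by
        rw [hg, map_mul, toLin'_mul]
        simp [Algebra.algebraMap_eq_smul_one]
      rw [e]
      have := finrank_ker_comp (toLin' (H - z • 1)) (toLin' (aeval H g))
      have := h1 z
      have := ih g hg0 hdg
      omega

theorem det_MM_ne {A : Matrix (Fin n) (Fin n) ℂ} (hA : A.IsHermitian) (hT : Tri A) {z : ℂ}
    (hz : z.im ≠ 0) : (MM (Hz A z)).det ≠ 0 := by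
  obtain ⟨d, hd, hdA⟩ := exists_twist hA hT
  set H := Hz A z with hH
  have h1 : ∀ w : ℂ, Module.finrank ℂ (LinearMap.ker (toLin' (H - w • 1))) ≤ 1 := by
    intro w
    have hev : ∀ ψ : LinearMap.ker (toLin' (H - w • 1)), H *ᵥ ψ.1 = w • ψ.1 := fun ψ => by
      have := LinearMap.mem_ker.mp ψ.2
      rw [toLin'_apply, sub_mulVec, smul_mulVec, one_mulVec] at this
      exact sub_eq_zero.mp this
    have hw : ∀ ψ φ : LinearMap.ker (toLin' (H - w • 1)), ∀ u v,
        ψ.1 u * φ.1 v = φ.1 u * ψ.1 v := fun ψ φ u v => by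
      have hc : H * wedge d ψ.1 φ.1 = wedge d ψ.1 φ.1 * H := by
        rw [← sub_eq_zero]
        ext u v
        rw [wedge_comm hd (twist_Hz hdA z) (hev ψ) (hev φ)]
        simp
      have := congrFun (congrFun (comm_zero hA hT hz _ (wedge_diag d ψ.1 φ.1) hc) u) v
      have hd0 : d v ≠ 0 := fun h0 => by simpa [h0] using hd v
      simp only [wedge, of_apply, Matrix.zero_apply, div_eq_zero_iff, hd0, or_false] at this
      exact sub_eq_zero.mp this
    rw [finrank_le_one_iff]
    by_cases h : ∀ ψ : LinearMap.ker (toLin' (H - w • 1)), ψ = 0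
    · exact ⟨0, fun φ => ⟨0, by rw [h φ]; simp⟩⟩
    · push Not at h
      obtain ⟨ψ, hψ⟩ := h
      have : ∃ u, ψ.1 u ≠ 0 := by
        by_contra hc
        push Not at hc
        exact hψ (Subtype.ext (funext hc))
      obtain ⟨u, hu⟩ := this
      refine ⟨ψ, fun φ => ⟨φ.1 u / ψ.1 u, Subtype.ext (funext fun v => ?_)⟩⟩
      have := hw ψ φ u v
      simp only [SetLike.val_smul, Pi.smul_apply, smul_eq_mul]
      field_simp
      linear_combination -this
  intro hdet
  obtain ⟨c, hc0, hc⟩ := exists_mulVec_eq_zero_iff.mpr hdet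
  let f : ℂ[X] := ∑ k : Fin n, monomial k.val (c k)
  have hcoef : ∀ k : Fin n, f.coeff k = c k := fun k => by
    simp only [f, finset_sum_coeff, coeff_monomial]
    rw [Finset.sum_eq_single k]
    · simp
    · intro b _ hb
      rw [if_neg (fun h => hb (Fin.ext h))]
    · simp
  have hf0 : f ≠ 0 := fun h => hc0 (funext fun k => by rw [← hcoef, h]; simp)
  have hn : 0 < n := by
    obtain ⟨k, -⟩ := Function.ne_iff.mp hc0
    exact k.pos
  have hdeg : f.natDegree ≤ n - 1 := by
    refine natDegree_sum_le_of_forall_le _ _ fun k _ => (natDegree_monomial_le _).trans ?_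
    have := k.2
    omega
  have hY : aeval H f = 0 := by
    refine comm_zero hA hT hz _ (fun l => ?_) ?_
    · rw [aeval_eq H f (by omega)]
      simp only [hcoef]
      rw [← MM_mulVec, hc]; rfl
    · have : H * aeval H f = aeval H (X * f) := by simp
      have h2 : aeval H f * H = aeval H (f * X) := by simp
      rw [this, h2, mul_comm]
  have := finrank_ker_aeval H h1 (n - 1) f hf0 hdeg
  rw [hY, map_zero, LinearMap.ker_zero] at this
  simp at this
  omega

lemma herm_diag {H : Matrix (Fin n) (Fin n) ℂ} (hH : H.IsHermitian) :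
    ∃ (U V : Matrix (Fin n) (Fin n) ℂ) (l : Fin n → ℂ), U * V = 1 ∧ V * U = 1 ∧
      H = U * diagonal l * V := by
  refine ⟨hH.eigenvectorUnitary, star (hH.eigenvectorUnitary : Matrix (Fin n) (Fin n) ℂ),
    RCLike.ofReal ∘ hH.eigenvalues, ?_, ?_, ?_⟩
  · exact (Unitary.mem_iff.mp hH.eigenvectorUnitary.2).2
  · exact (Unitary.mem_iff.mp hH.eigenvectorUnitary.2).1
  · have := hH.spectral_theorem
    rwa [Unitary.conjStarAlgAut_apply] at this

lemma aeval_diag {H U V : Matrix (Fin n) (Fin n) ℂ} {l : Fin n → ℂ} (h1 : U * V = 1)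
    (h2 : V * U = 1) (h : H = U * diagonal l * V) (f : ℂ[X]) :
    aeval H f = U * diagonal (fun i => f.eval (l i)) * V := by
  induction f using Polynomial.induction_on with
  | C a =>
    have : diagonal (fun _ : Fin n => a) = a • (1 : Matrix (Fin n) (Fin n) ℂ) := by
      ext i j; by_cases hij : i = j <;> simp [hij, diagonal, one_apply]
    simp only [aeval_C, eval_C, this, Algebra.algebraMap_eq_smul_one, Matrix.mul_smul,
      Matrix.smul_mul, Matrix.mul_one, h1]
  | add p q hp hq =>
    simp only [map_add, hp, hq, eval_add]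
    rw [← Matrix.add_mul, ← Matrix.mul_add, diagonal_add]
  | monomial k a ih =>
    have e : (diagonal fun i => eval (l i) (C a * X ^ (k + 1))) =
        (diagonal fun i => eval (l i) (C a * X ^ k)) * diagonal l := by
      rw [diagonal_mul_diagonal]
      congr 1
      funext i
      simp [pow_succ, mul_assoc]
    rw [e, pow_succ, ← mul_assoc, map_mul, ih, aeval_X]
    conv_lhs => rw [h]
    simp only [Matrix.mul_assoc]
    rw [← Matrix.mul_assoc V U, h2, Matrix.one_mul]

lemma det_MM_of_comm {H Y : Matrix (Fin n) (Fin n) ℂ} (hH : H.IsHermitian) (hY0 : Y ≠ 0)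
    (hY : ∀ u, Y u u = 0) (hc : H * Y = Y * H) : (MM H).det = 0 := by
  classical
  obtain ⟨U, V, l, h1, h2, h⟩ := herm_diag hH
  by_cases hl : Function.Injective l
  · set Z := V * Y * U with hZ
    have hYZ : Y = U * Z * V := by
      rw [hZ]
      simp only [Matrix.mul_assoc]
      rw [h1, Matrix.mul_one, ← Matrix.mul_assoc, h1, Matrix.one_mul]
    have hZc : diagonal l * Z = Z * diagonal l := by
      have e1 : diagonal l * Z = V * (H * Y) * U := by
        rw [hZ, h]
        simp only [Matrix.mul_assoc]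
        rw [← Matrix.mul_assoc V U, h2, Matrix.one_mul]
      have e2 : Z * diagonal l = V * (Y * H) * U := by
        rw [hZ, h]
        simp only [Matrix.mul_assoc]
        rw [h2, Matrix.mul_one]
      rw [e1, e2, hc]
    have hZd : Z = diagonal fun i => Z i i := by
      ext i j
      by_cases hij : i = j
      · rw [hij, diagonal_apply_eq]
      · rw [diagonal_apply_ne _ hij]
        have := congrFun (congrFun hZc i) j
        rw [diagonal_mul, mul_diagonal] at this
        have h3 : (l i - l j) * Z i j = 0 := by linear_combination this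
        exact (mul_eq_zero.mp h3).resolve_left (sub_ne_zero.mpr fun h => hij (hl h))
    let f := Lagrange.interpolate univ l (fun i => Z i i)
    have hf : aeval H f = Y := by
      rw [aeval_diag h1 h2 h, hYZ]
      congr 2
      rw [hZd]
      congr 1
      funext i
      simp only [f, diagonal_apply_eq]
      exact Lagrange.eval_interpolate_at_node _ hl.injOn (mem_univ i)
    have hf0 : f ≠ 0 := fun h0 => hY0 (by rw [← hf, h0, map_zero])
    refine det_MM_zero H f ?_ hf0 (fun l => by rw [hf, hY])
    have := Lagrange.degree_interpolate_lt (s := univ) (v := l) (fun i => Z i i) hl.injOn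
    rw [card_univ, Fintype.card_fin] at this
    exact (natDegree_lt_iff_degree_lt hf0).mpr this
  · obtain ⟨i, j, hij, hne⟩ : ∃ i j, l i = l j ∧ i ≠ j := by
      simpa [Function.Injective] using hl
    let f : ℂ[X] := ∏ k ∈ univ.erase j, (X - C (l k))
    have hm : f.Monic := monic_prod_of_monic _ _ fun k _ => monic_X_sub_C _
    refine det_MM_zero H f ?_ hm.ne_zero fun u => ?_
    · have : f.natDegree = n - 1 := by
        simp only [f]
        rw [natDegree_prod_of_monic _ _ fun k _ => monic_X_sub_C _]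
        simp
      have := j.pos
      omega
    · have : (fun k => f.eval (l k)) = fun _ => 0 := by
        funext k
        simp only [f, eval_prod, eval_sub, eval_X, eval_C]
        by_cases hk : k = j
        · exact Finset.prod_eq_zero (i := i) (by simp [hne]) (by rw [hk, hij, sub_self])
        · exact Finset.prod_eq_zero (i := k) (by simp [hk]) (sub_self _)
      rw [aeval_diag h1 h2 h, this]
      simp

lemma Hz_herm {A : Matrix (Fin n) (Fin n) ℂ} (hA : A.IsHermitian) (r : ℝ) :
    (Hz A r).IsHermitian := by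
  refine hA.add (isHermitian_diagonal_of_self_adjoint _ ?_)
  ext u
  simp

theorem det_MM_of_ker {A : Matrix (Fin n) (Fin n) ℂ} (hA : A.IsHermitian) (hT : Tri A) (r : ℝ)
    (x : T n → ℂ) (hx0 : x ≠ 0) (hx : ∀ p, (KK A *ᵥ x) p + r * rho p * x p = 0) :
    (MM (Hz A r)).det = 0 := by
  obtain ⟨d, hd, hdA⟩ := exists_twist hA hT
  have hd0 : ∀ u, d u ≠ 0 := fun u h0 => by simpa [h0] using hd u
  set H := Hz A r with hH
  have hdH : ∀ u v, d u * H v u = H u v * d v := twist_Hz hdA r
  let Y : Matrix (Fin n) (Fin n) ℂ := Matrix.of fun u v =>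
    if h : v < u then x ⟨(u, v), h⟩ else if h' : u < v then d u * x ⟨(v, u), h'⟩ / d v else 0
  have hres : res Y = x := funext fun p => by
    simp only [res, Y, of_apply]; rw [dif_pos p.2]
  have hYd : ∀ u, Y u u = 0 := fun u => by simp [Y]
  have hdY : ∀ u v, d u * Y v u = Y u v * d v := fun u v => by
    have := hd0 u
    have := hd0 v
    rcases lt_trichotomy u v with h | h | h
    · simp only [Y, of_apply]
      rw [dif_pos h, dif_neg (not_lt.mpr h.le), dif_pos h]; field_simp
    · rw [h, mul_comm]
    · simp only [Y, of_apply]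
      rw [dif_pos h, dif_neg (not_lt.mpr h.le), dif_pos h]; field_simp
  have hanti : ∀ u v, d u * (H * Y - Y * H) v u = -((H * Y - Y * H) u v * d v) := fun u v => by
    simp only [Matrix.sub_apply, Matrix.mul_apply, mul_sub, sub_mul, Finset.mul_sum,
      Finset.sum_mul, neg_sub]
    congr 1
    · refine Finset.sum_congr rfl fun w _ => ?_
      linear_combination (H v w) * hdY u w + (Y u w) * hdH w v
    · refine Finset.sum_congr rfl fun w _ => ?_
      linear_combination (Y v w) * hdH u w + (H u w) * hdY w v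
  have hlow : ∀ u v, v < u → (H * Y - Y * H) u v = 0 := fun u v h => by
    have := comm_Hz hT r Y hYd ⟨(u, v), h⟩
    rw [hres, hx] at this
    exact this
  refine det_MM_of_comm (Hz_herm hA r) (Y := Y) (fun h => hx0 (by rw [← hres, h]; rfl)) hYd ?_
  rw [← sub_eq_zero]
  ext u v
  rcases lt_trichotomy u v with h | h | h
  · have := hanti u v
    rw [hlow v u h, mul_zero] at this
    have h2 : (H * Y - Y * H) u v * d v = 0 := by linear_combination this
    exact (mul_eq_zero.mp h2).resolve_right (hd0 v)
  · have := hanti u u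
    have h2 : (H * Y - Y * H) u u * d u = 0 := by linear_combination (1 / 2 : ℂ) * this
    rw [← h]
    exact (mul_eq_zero.mp h2).resolve_right (hd0 u)
  · exact hlow u v h

end Pool.Agent.H.Gap
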