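import Mathlib
import Pool.Agent.H.MP_26b317_lc.B

set_option autoImplicit false

namespace Pool.Agent.H.Gap

open Matrix Finset Polynomial

variable {n : ℕ}

lemma approx_eig {ι : Type} [Fintype ι] [DecidableEq ι] {B : Matrix ι ι ℂ} (hB : B.IsHermitian)
    (y : ι → ℂ) (hy : y ≠ 0) (t ε : ℝ) (hε : 0 ≤ ε)
    (h : ∑ p, ‖(B *ᵥ y) p + t * y p‖ ^ 2 ≤ ε ^ 2 * ∑ p, ‖y p‖ ^ 2) :
    ∃ r : ℝ, |t - r| ≤ ε ∧ ∃ w : ι → ℂ, w ≠ 0 ∧ ∀ p, (B *ᵥ w) p + r * w p = 0 := by
  have hS := isSymmetric_toEuclideanLin_iff.mpr hB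
  set b := hS.eigenvectorBasis finrank_euclideanSpace with hb
  set l := hS.eigenvalues finrank_euclideanSpace with hl
  by_contra hcon
  have hgt : ∀ i, ε < |t + l i| := fun i => by
    by_contra hle
    refine hcon ⟨-l i, by simpa using hle, (b i).ofLp, fun h0 => ?_, fun p => ?_⟩
    · exact b.orthonormal.ne_zero i (by ext p; exact congrFun h0 p)
    · have := hS.apply_eigenvectorBasis finrank_euclideanSpace i
      have h2 := congrArg (fun v : EuclideanSpace ℂ ι => v.ofLp p) this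
      simp only [← hb, ← hl] at h2
      have h3 : (B *ᵥ (b i).ofLp) p = (l i : ℂ) * (b i).ofLp p := h2
      rw [h3]; push_cast; ring
  let v : EuclideanSpace ℂ ι := WithLp.toLp 2 y
  let w : EuclideanSpace ℂ ι := toEuclideanLin B v + (t : ℂ) • v
  have e1 : ∑ p, ‖y p‖ ^ 2 = ∑ i, ‖b.repr v i‖ ^ 2 := by
    rw [← EuclideanSpace.norm_sq_eq (b.repr v), b.repr.norm_map, EuclideanSpace.norm_sq_eq]
  have e2 : ∑ p, ‖(B *ᵥ y) p + t * y p‖ ^ 2 = ∑ i, ‖b.repr w i‖ ^ 2 := by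
    rw [← EuclideanSpace.norm_sq_eq (b.repr w), b.repr.norm_map, EuclideanSpace.norm_sq_eq]
    rfl
  have e3 : ∀ i, ‖b.repr w i‖ ^ 2 = |t + l i| ^ 2 * ‖b.repr v i‖ ^ 2 := fun i => by
    have := hS.eigenvectorBasis_apply_self_apply finrank_euclideanSpace v i
    simp only [← hb, ← hl] at this
    have h4 : b.repr w i = ((t + l i : ℝ) : ℂ) * b.repr v i := by
      simp only [w, map_add, map_smul, PiLp.add_apply, PiLp.smul_apply, smul_eq_mul]
      rw [this]; push_cast; simp; ring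
    rw [h4, norm_mul, Complex.norm_real, mul_pow, Real.norm_eq_abs]
  rw [e1, e2, Finset.mul_sum] at h
  have hv : b.repr v ≠ 0 := fun h0 => hy (by
    have : v = 0 := b.repr.injective (by rw [h0, map_zero])
    exact congrArg WithLp.ofLp this)
  obtain ⟨i, hi⟩ : ∃ i, b.repr v i ≠ 0 := by
    by_contra hc
    push Not at hc
    exact hv (by ext i; exact hc i)
  refine absurd h (not_le.mpr (Finset.sum_lt_sum (fun j _ => ?_) ⟨i, mem_univ _, ?_⟩))
  · rw [e3]
    gcongr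
    exact (hgt j).le
  · rw [e3]
    have : 0 < ‖b.repr v i‖ ^ 2 := by positivity
    have h5 : ε ^ 2 < |t + l i| ^ 2 := by
      have := hgt i
      gcongr
    gcongr

lemma pencil {A : Matrix (Fin n) (Fin n) ℂ} (hA : A.IsHermitian) (x : T n → ℂ) (hx : x ≠ 0)
    (t η : ℝ) (hη : 0 ≤ η)
    (h : ∑ p, ‖(KK A *ᵥ x) p + t * rho p * x p‖ ^ 2 ≤ η ^ 2 * ∑ p, ‖x p‖ ^ 2) :
    ∃ r : ℝ, |t - r| ≤ n * η ∧ ∃ w : T n → ℂ, w ≠ 0 ∧
      ∀ p, (KK A *ᵥ w) p + r * rho p * w p = 0 := by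
  classical
  let σ : T n → ℝ := fun p => √(rho p)
  have hσ : ∀ p, 0 < σ p := fun p => Real.sqrt_pos.mpr (rho_pos p)
  have hσ2 : ∀ p, σ p ^ 2 = rho p := fun p => Real.sq_sqrt (rho_pos p).le
  have hσc : ∀ p, (σ p : ℂ) ≠ 0 := fun p => by exact_mod_cast (hσ p).ne'
  have hσ2c : ∀ p, (rho p : ℂ) = (σ p : ℂ) ^ 2 := fun p => by rw [← hσ2]; push_cast; rfl
  let B : Matrix (T n) (T n) ℂ := Matrix.of fun p q => KK A p q / (σ p * σ q)
  have hB : B.IsHermitian := by
    ext p q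
    simp only [B, conjTranspose_apply, of_apply, star_div₀, (KK_herm hA).apply]
    simp [mul_comm]
  have key : ∀ (w : T n → ℂ) (r : ℝ) p, (B *ᵥ fun q => σ q * w q) p + r * (σ p * w p) =
      ((KK A *ᵥ w) p + r * rho p * w p) / σ p := fun w r p => by
    have : (B *ᵥ fun q => σ q * w q) p = (KK A *ᵥ w) p / σ p := by
      simp only [mulVec, dotProduct, B, of_apply, Finset.sum_div]
      refine Finset.sum_congr rfl fun q _ => ?_
      have := hσc p
      have := hσc q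
      field_simp
    rw [this, hσ2c]
    have := hσc p
    field_simp
  obtain ⟨p0, hp0⟩ := Function.ne_iff.mp hx
  have hn := npos p0
  obtain ⟨r, hr, w, hw0, hw⟩ := approx_eig hB (fun q => σ q * x q)
    (fun h0 => hp0 ((mul_eq_zero.mp (congrFun h0 p0)).resolve_left (hσc p0))) t (n * η)
    (by positivity) (by
      have e1 : ∀ p, ‖(B *ᵥ fun q => σ q * x q) p + t * (σ p * x p)‖ ^ 2 ≤
          n * ‖(KK A *ᵥ x) p + t * rho p * x p‖ ^ 2 := fun p => by
        rw [key, norm_div, div_pow, Complex.norm_real, Real.norm_eq_abs, sq_abs, hσ2,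
          div_le_iff₀ (rho_pos p)]
        have h1 := rho_ge p
        rw [div_le_iff₀ hn] at h1
        nlinarith [sq_nonneg ‖(KK A *ᵥ x) p + t * rho p * x p‖]
      have e2 : ∀ p, ‖x p‖ ^ 2 ≤ n * ‖(σ p : ℂ) * x p‖ ^ 2 := fun p => by
        rw [norm_mul, mul_pow, Complex.norm_real, Real.norm_eq_abs, sq_abs, hσ2]
        have h1 := rho_ge p
        rw [div_le_iff₀ hn] at h1
        nlinarith [sq_nonneg ‖x p‖]
      calc _ ≤ ∑ p, n * ‖(KK A *ᵥ x) p + t * rho p * x p‖ ^ 2 := Finset.sum_le_sum fun p _ => e1 p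
        _ = n * ∑ p, ‖(KK A *ᵥ x) p + t * rho p * x p‖ ^ 2 := by rw [Finset.mul_sum]
        _ ≤ n * (η ^ 2 * ∑ p, ‖x p‖ ^ 2) := by gcongr
        _ ≤ n * (η ^ 2 * ∑ p, n * ‖(σ p : ℂ) * x p‖ ^ 2) := by
          gcongr with p
          exact e2 p
        _ = _ := by rw [← Finset.mul_sum]; ring)
  refine ⟨r, hr, fun q => w q / σ q, fun h0 => hw0 (funext fun q => ?_), fun p => ?_⟩
  · have := congrFun h0 q
    simpa [hσc q] using this
  · have h1 := key (fun q => w q / σ q) r p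
    have h2 : (fun q => (σ q : ℂ) * (w q / σ q)) = w := funext fun q => by
      have := hσc q
      field_simp
    have h3 := congrFun h2 p
    simp only [h2] at h1
    rw [h3, hw] at h1
    exact (div_eq_zero_iff.mp h1.symm).resolve_right (hσc p)

lemma sum_pm (ψ φ : Fin n → ℂ) (h1 : ∑ u, ‖ψ u‖ ^ 2 = 1) (h2 : ∑ u, ‖φ u‖ ^ 2 = 1)
    (h3 : ∑ u, ψ u * star (φ u) = 0) (e : ℝ) (he : e ^ 2 = 1) :
    ∑ u, ∑ v, ‖ψ u * φ v + e * (φ u * ψ v)‖ ^ 2 = 2 := by
  have h3' : ∑ u, φ u * star (ψ u) = 0 := by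
    have := congrArg star h3
    simpa [star_sum, mul_comm] using this
  have c1 : ∑ u, ψ u * star (ψ u) = 1 := by
    have : ((∑ u, ‖ψ u‖ ^ 2 : ℝ) : ℂ) = 1 := by rw [h1]; simp
    rw [← this]; push_cast
    exact Finset.sum_congr rfl fun u _ => by simp [Complex.mul_conj']
  have c2 : ∑ u, φ u * star (φ u) = 1 := by
    have : ((∑ u, ‖φ u‖ ^ 2 : ℝ) : ℂ) = 1 := by rw [h2]; simp
    rw [← this]; push_cast
    exact Finset.sum_congr rfl fun u _ => by simp [Complex.mul_conj']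
  have hec : (e : ℂ) ^ 2 = 1 := by exact_mod_cast he
  have : ((∑ u, ∑ v, ‖ψ u * φ v + e * (φ u * ψ v)‖ ^ 2 : ℝ) : ℂ) =
      (∑ u, ψ u * star (ψ u)) * (∑ u, φ u * star (φ u)) +
      (∑ u, φ u * star (φ u)) * (∑ u, ψ u * star (ψ u)) +
      e * ((∑ u, ψ u * star (φ u)) * (∑ u, φ u * star (ψ u))) +
      e * ((∑ u, φ u * star (ψ u)) * (∑ u, ψ u * star (φ u))) := by
    simp only [Finset.sum_mul_sum]
    simp only [Finset.mul_sum, ← Finset.sum_add_distrib]
    push_cast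
    refine Finset.sum_congr rfl fun u _ => Finset.sum_congr rfl fun v _ => ?_
    rw [← Complex.mul_conj']
    simp only [map_add, map_mul, Complex.conj_ofReal, RCLike.star_def]
    linear_combination (φ u * ψ v * (starRingEnd ℂ) (φ u) * (starRingEnd ℂ) (ψ v)) * hec
  rw [c1, c2, h3, h3'] at this
  have h5 : ((∑ u, ∑ v, ‖ψ u * φ v + e * (φ u * ψ v)‖ ^ 2 : ℝ) : ℂ) = ((2 : ℝ) : ℂ) := by
    rw [this]; push_cast; ring
  exact_mod_cast h5

lemma sumTR (f : Fin n → Fin n → ℝ) :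
    ∑ q : T n, f q.1.1 q.1.2 = ∑ u, ∑ v, if v < u then f u v else 0 := by
  rw [← Fintype.sum_prod_type' (fun u v => if v < u then f u v else 0), ← Finset.sum_filter]
  exact (Finset.sum_subtype (p := fun p : Fin n × Fin n => p.2 < p.1)
    (univ.filter fun p : Fin n × Fin n => p.2 < p.1) (by simp) (fun p => f p.1 p.2)).symm

lemma sumT_symm (f : Fin n → Fin n → ℝ) (hs : ∀ u v, f u v = f v u) (h0 : ∀ u, f u u = 0) :
    ∑ u, ∑ v, f u v = 2 * ∑ q : T n, f q.1.1 q.1.2 := by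
  rw [sumTR, two_mul]
  conv_rhs => rw [Finset.sum_comm]; congr; rfl; rw [Finset.sum_comm]
  rw [← Finset.sum_add_distrib]
  refine Finset.sum_congr rfl fun u _ => ?_
  rw [← Finset.sum_add_distrib]
  refine Finset.sum_congr rfl fun v _ => ?_
  rcases lt_trichotomy u v with h | h | h
  · simp [h, not_lt.mpr h.le, hs u v]
  · simp [h, h0]
  · simp [h, not_lt.mpr h.le]

theorem gap_root {A : Matrix (Fin n) (Fin n) ℂ} (hA : A.IsHermitian) (hT : Tri A) (t : ℝ)
    (hM : (Hz A t).IsHermitian) {i j : Fin n} (hij : i ≠ j) :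
    ∃ r : ℝ, |t - r| ≤ 2 * n * |hM.eigenvalues i - hM.eigenvalues j| ∧ (MM (Hz A r)).det = 0 := by
  obtain ⟨d, hd, hdA⟩ := exists_twist hA hT
  set ψ : Fin n → ℂ := (hM.eigenvectorBasis i).ofLp
  set φ : Fin n → ℂ := (hM.eigenvectorBasis j).ofLp
  have on := hM.eigenvectorBasis.orthonormal
  have h1 : ∑ u, ‖ψ u‖ ^ 2 = 1 := by
    rw [← EuclideanSpace.norm_sq_eq, on.1 i]; simp
  have h2 : ∑ u, ‖φ u‖ ^ 2 = 1 := by
    rw [← EuclideanSpace.norm_sq_eq, on.1 j]; simp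
  have h3 : ∑ u, ψ u * star (φ u) = 0 := by
    have := on.2 (Ne.symm hij)
    simp only [PiLp.inner_apply] at this
    simpa using this
  have hψ : Hz A t *ᵥ ψ = (hM.eigenvalues i : ℂ) • ψ := by
    have := hM.mulVec_eigenvectorBasis i
    rw [this]; ext u; simp [ψ]
  have hφ : Hz A t *ᵥ φ = (hM.eigenvalues j : ℂ) • φ := by
    have := hM.mulVec_eigenvectorBasis j
    rw [this]; ext u; simp [φ]
  set a := hM.eigenvalues i
  set b := hM.eigenvalues j
  set x := res (wedge d ψ φ) with hx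
  have hn1 : ∑ p, ‖x p‖ ^ 2 = 1 := by
    have e1 := sum_pm ψ φ h1 h2 h3 (-1) (by norm_num)
    rw [sumT_symm (fun u v => ‖ψ u * φ v + ((-1 : ℝ) : ℂ) * (φ u * ψ v)‖ ^ 2)
      (fun u v => by rw [← norm_neg]; congr 2; push_cast; ring)
      (fun u => by simp [mul_comm])] at e1
    have : ∀ p, ‖x p‖ ^ 2 = ‖ψ p.1.1 * φ p.1.2 + ((-1 : ℝ) : ℂ) * (φ p.1.1 * ψ p.1.2)‖ ^ 2 := by
      intro p
      simp only [hx, res, wedge, of_apply, norm_div, hd, div_one]
      congr 2; push_cast; ring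
    simp only [this]
    linarith
  have hx0 : x ≠ 0 := fun h => by simp [h] at hn1
  obtain ⟨r, hr, w, hw0, hw⟩ := pencil hA x hx0 t (2 * |a - b|) (by positivity) (by
    have e1 := sum_pm ψ φ h1 h2 h3 1 (by norm_num)
    have e2 : ∀ p : T n, ‖(KK A *ᵥ x) p + t * rho p * x p‖ ^ 2 =
        |a - b| ^ 2 * ‖ψ p.1.1 * φ p.1.2 + ((1 : ℝ) : ℂ) * (φ p.1.1 * ψ p.1.2)‖ ^ 2 := by
      intro p
      rw [hx, ← comm_Hz hT t _ (wedge_diag d ψ φ) p, wedge_comm hd (twist_Hz hdA t) hψ hφ,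
        norm_div, hd, div_one, norm_mul, mul_pow, ← Complex.ofReal_sub, Complex.norm_real]
      simp
    simp only [e2]
    rw [← Finset.mul_sum, hn1,
      sumTR (fun u v => ‖ψ u * φ v + ((1 : ℝ) : ℂ) * (φ u * ψ v)‖ ^ 2)]
    have e3 : ∑ u, ∑ v, (if v < u then ‖ψ u * φ v + ((1 : ℝ) : ℂ) * (φ u * ψ v)‖ ^ 2 else 0) ≤ 2 := by
      rw [← e1]
      gcongr with u _ v _
      split_ifs
      · rfl
      · positivity
    nlinarith [sq_nonneg |a - b|])
  exact ⟨r, by linarith, det_MM_of_ker hA hT r w hw0 hw⟩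

noncomputable def PP (A : Matrix (Fin n) (Fin n) ℂ) : Matrix (Fin n) (Fin n) ℂ[X] :=
  A.map C + diagonal (fun u : Fin n => X * C ((u.val : ℂ) / n))

noncomputable def qP (A : Matrix (Fin n) (Fin n) ℂ) : ℂ[X] :=
  det (Matrix.of fun l k : Fin n => (PP A ^ k.val) l l)

lemma qP_eval (A : Matrix (Fin n) (Fin n) ℂ) (z : ℂ) : (qP A).eval z = (MM (Hz A z)).det := by
  have : (qP A).eval z = (evalRingHom z) (qP A) := rfl
  rw [this, qP, RingHom.map_det]
  congr 1
  ext l k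
  have e : (evalRingHom z).mapMatrix (PP A) = Hz A z := by
    ext u v
    by_cases h : u = v
    · subst h
      simp only [Hz, PP, RingHom.mapMatrix_apply, map_apply, Matrix.add_apply, diagonal_apply_eq,
        coe_evalRingHom, eval_add, eval_C, eval_mul, eval_X]
    · simp [Hz, PP, diagonal_apply_ne _ h]
  simp only [MM, of_apply, ← e, ← map_pow]
  rfl

lemma qP_deg (A : Matrix (Fin n) (Fin n) ℂ) : (qP A).natDegree ≤ n ^ 2 := by
  obtain ⟨P, hP⟩ : ∃ P, P = PP A := ⟨_, rfl⟩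
  have h1 : ∀ u v, (P u v).natDegree ≤ 1 := fun u v => by
    by_cases h : u = v
    · subst h
      simp only [hP, PP, Matrix.add_apply, map_apply, diagonal_apply_eq]
      compute_degree
    · simp [hP, PP, diagonal_apply_ne _ h]
  have h2 : ∀ k u v, ((P ^ k) u v).natDegree ≤ k := fun k => by
    induction k with
    | zero => intro u v; by_cases h : u = v <;> simp [one_apply, h]
    | succ k ih =>
      intro u v
      rw [pow_succ, Matrix.mul_apply]
      exact natDegree_sum_le_of_forall_le _ _ fun w _ =>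
        natDegree_mul_le.trans (add_le_add (ih u w) (h1 w v))
  rw [qP, ← hP, det_apply]
  refine natDegree_sum_le_of_forall_le _ _ fun σ _ => (natDegree_smul_le _ _).trans ?_
  refine (natDegree_prod_le _ _).trans ?_
  calc _ ≤ ∑ _i : Fin n, n := Finset.sum_le_sum fun i _ => (h2 _ _ _).trans i.2.le
    _ = n ^ 2 := by simp [sq]

theorem spec {A : Matrix (Fin n) (Fin n) ℂ} (hA : A.IsHermitian) (hT : Tri A) :
    ∃ (R : Multiset ℝ) (c : ℝ), 0 < c ∧ R.card ≤ n ^ 2 ∧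
      (∀ x y : ℝ, Complex.normSq (MM (Hz A (x + y * Complex.I))).det =
        c * (R.map fun r => (x - r) ^ 2 + y ^ 2).prod) ∧
      ∀ t s : ℝ, (∀ r ∈ R, s ≤ |t - r|) → ∀ (hM : (Hz A t).IsHermitian) (i j : Fin n), i ≠ j →
        s ≤ 2 * n * |hM.eigenvalues i - hM.eigenvalues j| := by
  have h0 : qP A ≠ 0 := fun h => det_MM_ne hA hT (z := Complex.I) (by simp) (by
    rw [← qP_eval, h, eval_zero])
  have hre : ∀ z ∈ (qP A).roots, z.im = 0 := fun z hz => by
    by_contra h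
    exact det_MM_ne hA hT h (by rw [← qP_eval]; exact (mem_roots h0).mp hz)
  refine ⟨(qP A).roots.map Complex.re, Complex.normSq (qP A).leadingCoeff,
    Complex.normSq_pos.mpr (leadingCoeff_ne_zero.mpr h0), ?_, fun x y => ?_, ?_⟩
  · rw [Multiset.card_map]; exact (card_roots' _).trans (qP_deg A)
  · rw [← qP_eval, (IsAlgClosed.splits (qP A)).eval_eq_prod_roots, map_mul, map_multiset_prod,
      Multiset.map_map, Multiset.map_map]
    congr 2
    refine Multiset.map_congr rfl fun z hz => ?_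
    simp [Complex.normSq_apply, hre z hz, sq]
  · intro t s hs hM i j hij
    obtain ⟨r, hr, hdet⟩ := gap_root hA hT t hM hij
    refine (hs r ?_).trans hr
    exact Multiset.mem_map.mpr ⟨r, (mem_roots h0).mpr (by rw [IsRoot, qP_eval, hdet]), by simp⟩

end Pool.Agent.H.Gap
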