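import Mathlib

set_option autoImplicit false

namespace Pool.Agent.H.Gap

open Matrix Finset

lemma tele (w : ℝ) : 1 / (w ^ 2 + 1) ≤
    2 * ((w + 1 / 2) / (1 + |w + 1 / 2|) - (w - 1 / 2) / (1 + |w - 1 / 2|)) := by
  rcases le_total w (-1 / 2) with h | h
  · rw [abs_of_nonpos (by linarith), abs_of_nonpos (by linarith), div_sub_div _ _ (by linarith)
      (by linarith), ← mul_div_assoc, div_le_div_iff₀ (by positivity) (by nlinarith)]
    nlinarith [sq_nonneg (w + 1)]
  · rcases le_total w (1 / 2) with h' | h'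
    · rw [abs_of_nonneg (by linarith), abs_of_nonpos (by linarith), div_sub_div _ _ (by linarith)
        (by linarith), ← mul_div_assoc, div_le_div_iff₀ (by positivity) (by nlinarith)]
      have : w ^ 2 ≤ 1 / 4 := by nlinarith
      nlinarith [sq_nonneg w]
    · rw [abs_of_nonneg (by linarith), abs_of_nonneg (by linarith), div_sub_div _ _ (by linarith)
        (by linarith), ← mul_div_assoc, div_le_div_iff₀ (by positivity) (by nlinarith)]
      nlinarith [sq_nonneg (w - 1)]

lemma sum_le_four (z : ℝ) (K : ℕ) : ∑ m ∈ range K, 1 / ((z + m) ^ 2 + 1) ≤ 4 := by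
  let g : ℕ → ℝ := fun m => (z + m - 1 / 2) / (1 + |z + m - 1 / 2|)
  have hg : ∀ m, |g m| ≤ 1 := fun m => by
    simp only [g]
    rw [abs_div, abs_of_pos (a := 1 + _) (by positivity), div_le_one (by positivity)]
    linarith
  calc _ ≤ ∑ m ∈ range K, 2 * (g (m + 1) - g m) := Finset.sum_le_sum fun m _ => by
        have := tele (z + m)
        simp only [g]
        push_cast
        rw [show z + ((m : ℝ) + 1) - 1 / 2 = z + m + 1 / 2 by ring]
        exact this
    _ = 2 * (g K - g 0) := by rw [← Finset.mul_sum, Finset.sum_range_sub]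
    _ ≤ 4 := by
      have h1 := abs_le.mp (hg K)
      have h2 := abs_le.mp (hg 0)
      linarith [h1.2, h2.1]

lemma sum_64 (y : ℝ) : ∑ m ∈ range 64, 1 / ((64 * y + m) ^ 2 + 1) ≤ 32 / (y ^ 2 + 4) := by
  rcases le_total (y ^ 2) 4 with h | h
  · refine (sum_le_four _ _).trans ?_
    rw [le_div_iff₀ (by positivity)]; linarith
  · have hy : 2 ≤ |y| := by
      rw [← sq_abs] at h
      nlinarith [abs_nonneg y]
    calc _ ≤ ∑ _m ∈ range 64, 1 / (2 * (y ^ 2 + 4)) := Finset.sum_le_sum fun m hm => by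
          have hm' : (m : ℝ) ≤ 64 := by exact_mod_cast (mem_range.mp hm).le
          have hm0 : (0 : ℝ) ≤ m := by positivity
          refine one_div_le_one_div_of_le (by positivity) ?_
          have h1 : 32 * |y| ≤ |64 * y + m| := by
            rcases abs_cases y with ⟨e, _⟩ | ⟨e, _⟩
            · rw [e] at hy ⊢; exact le_trans (by linarith) (le_abs_self _)
            · rw [e] at hy ⊢; exact le_trans (by linarith) (neg_le_abs _)
          have h2 : (32 * |y|) ^ 2 ≤ |64 * y + m| ^ 2 := by gcongr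
          rw [sq_abs, mul_pow, sq_abs] at h2
          nlinarith
      _ = _ := by simp; field_simp; norm_num

noncomputable def fac (w s : ℝ) : ℝ := (w ^ 2 + (2 * s) ^ 2) / (w ^ 2 + s ^ 2)

lemma fac_pos (w : ℝ) {s : ℝ} (hs : 0 < s) : 0 < fac w s := by unfold fac; positivity

lemma log_fac_le (w : ℝ) {s : ℝ} (hs : 0 < s) :
    Real.log (fac w s) ≤ 3 * s ^ 2 / (w ^ 2 + s ^ 2) := by
  refine (Real.log_le_sub_one_of_pos (fac_pos w hs)).trans (le_of_eq ?_)
  unfold fac; field_simp; ring

lemma le_log_fac (w : ℝ) {s : ℝ} (hs : 0 < s) :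
    3 * s ^ 2 / (w ^ 2 + 4 * s ^ 2) ≤ Real.log (fac w s) := by
  refine le_trans (le_of_eq ?_) (Real.one_sub_inv_le_log_of_pos (fac_pos w hs))
  unfold fac; field_simp; ring

lemma root_step (w : ℝ) {s : ℝ} (hs : 0 < s) :
    ∑ m ∈ range 64, Real.log (fac (w + m * (s / 64)) (s / 64)) ≤ 32 * Real.log (fac w s) := by
  have h := sum_64 (w / s)
  calc _ ≤ ∑ m ∈ range 64, 3 * (1 / ((64 * (w / s) + m) ^ 2 + 1)) :=
        Finset.sum_le_sum fun m _ => (log_fac_le _ (by positivity)).trans (le_of_eq (by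
          field_simp))
    _ ≤ 3 * (32 / ((w / s) ^ 2 + 4)) := by rw [← Finset.mul_sum]; gcongr
    _ = 32 * (3 * s ^ 2 / (w ^ 2 + 4 * s ^ 2)) := by field_simp
    _ ≤ _ := by gcongr; exact le_log_fac w hs

noncomputable def GG (R : Multiset ℝ) (t s : ℝ) : ℝ := (R.map fun r => fac (t - r) s).prod

lemma GG_pos (R : Multiset ℝ) (t : ℝ) {s : ℝ} (hs : 0 < s) : 0 < GG R t s :=
  Multiset.prod_pos fun a ha => by
    obtain ⟨r, -, rfl⟩ := Multiset.mem_map.mp ha
    exact fac_pos _ hs

lemma log_GG_cons (r : ℝ) (R : Multiset ℝ) (t : ℝ) {s : ℝ} (hs : 0 < s) :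
    Real.log (GG (r ::ₘ R) t s) = Real.log (fac (t - r) s) + Real.log (GG R t s) := by
  rw [← Real.log_mul (fac_pos _ hs).ne' (GG_pos R t hs).ne']
  simp [GG]

lemma GG_sum (R : Multiset ℝ) (t : ℝ) {s : ℝ} (hs : 0 < s) :
    ∑ m ∈ range 64, Real.log (GG R (t + m * (s / 64)) (s / 64)) ≤ 32 * Real.log (GG R t s) := by
  induction R using Multiset.induction_on with
  | empty => simp [GG]
  | cons r R ih =>
    have h64 : 0 < s / 64 := by positivity
    simp only [log_GG_cons _ _ _ h64, log_GG_cons _ _ _ hs, Finset.sum_add_distrib]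
    have := root_step (t - r) hs
    simp only [show ∀ m : ℕ, t - r + m * (s / 64) = t + m * (s / 64) - r from fun m => by ring]
      at this
    linarith

lemma GG_step (R : Multiset ℝ) (t : ℝ) {s : ℝ} (hs : 0 < s) :
    ∃ m < 64, Real.log (GG R (t + (m : ℕ) * (s / 64)) (s / 64)) ≤ Real.log (GG R t s) / 2 := by
  by_contra hc
  push Not at hc
  have h1 := GG_sum R t hs
  have h2 : ∑ _m ∈ range 64, Real.log (GG R t s) / 2 <
      ∑ m ∈ range 64, Real.log (GG R (t + m * (s / 64)) (s / 64)) :=
    Finset.sum_lt_sum_of_nonempty (by simp) fun m hm => hc m (mem_range.mp hm)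
  simp only [sum_const, card_range, nsmul_eq_mul] at h2
  push_cast at h2
  linarith

lemma log_fac_nonneg (w : ℝ) {s : ℝ} (hs : 0 < s) : 0 ≤ Real.log (fac w s) :=
  le_trans (by positivity) (le_log_fac w hs)

lemma log_GG_le (R : Multiset ℝ) (t : ℝ) {s : ℝ} (hs : 0 < s) :
    0 ≤ Real.log (GG R t s) ∧ Real.log (GG R t s) ≤ 3 * R.card := by
  induction R using Multiset.induction_on with
  | empty => simp [GG]
  | cons r R ih =>
    rw [log_GG_cons _ _ _ hs, Multiset.card_cons]
    have h1 := log_fac_nonneg (t - r) hs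
    have h2 : Real.log (fac (t - r) s) ≤ 3 := (log_fac_le _ hs).trans (by
      rw [div_le_iff₀ (by positivity)]; nlinarith [sq_nonneg (t - r)])
    push_cast
    constructor <;> linarith [ih.1, ih.2]

lemma far_of_GG (R : Multiset ℝ) (t : ℝ) {s : ℝ} (hs : 0 < s) (h : Real.log (GG R t s) < 3 / 5) :
    ∀ r ∈ R, s ≤ |t - r| := by
  intro r hr
  obtain ⟨R', rfl⟩ := Multiset.exists_cons_of_mem hr
  rw [log_GG_cons _ _ _ hs] at h
  have h1 := (log_GG_le R' t hs).1
  have h2 := le_log_fac (t - r) hs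
  by_contra hc
  push Not at hc
  have h3 : (t - r) ^ 2 ≤ s ^ 2 := by
    rw [← sq_abs]; gcongr
  have : 3 / 5 ≤ 3 * s ^ 2 / ((t - r) ^ 2 + 4 * s ^ 2) := by
    rw [div_le_div_iff₀ (by norm_num) (by positivity)]; nlinarith
  linarith

lemma GG_eq (R : Multiset ℝ) (t : ℝ) (s : ℝ) {c : ℝ} (hc : 0 < c) :
    c * (R.map fun r => (t - r) ^ 2 + (2 * s) ^ 2).prod /
      (c * (R.map fun r => (t - r) ^ 2 + s ^ 2).prod) = GG R t s := by
  rw [mul_div_mul_left _ _ hc.ne', ← Multiset.prod_map_div]; rfl

/-- elimination without pivoting -/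
noncomputable def El (G : ℕ → ℕ → ℂ) : ℕ → ℕ → ℕ → ℂ
  | 0 => G
  | k + 1 => fun i j => El G k i j - El G k i k * El G k k j / El G k k k

lemma El_gram {n : ℕ} (G : ℕ → ℕ → ℂ) (W : ℕ → Fin n → ℂ)
    (h : ∀ i < n, ∀ j < n, G i j = ∑ l, star (W i l) * W j l) (k : ℕ) (hk : k ≤ n) :
    (∃ W : ℕ → Fin n → ℂ, ∀ i < n, ∀ j < n, El G k i j = ∑ l, star (W i l) * W j l) ∧
      ∀ i < n, ∀ j < k, El G k i j = 0 := by
  induction k with
  | zero => exact ⟨⟨W, h⟩, fun i _ j hj => absurd hj (Nat.not_lt_zero j)⟩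
  | succ k ih =>
    obtain ⟨⟨V, hV⟩, h0⟩ := ih (by omega)
    have hkn : k < n := hk
    have hz : El G k k k = 0 → ∀ i < n, El G k i k = 0 := fun hp i hi => by
      rw [hV k hkn k hkn] at hp
      have : ∀ l, V k l = 0 := by
        have h2 : ((∑ l, Complex.normSq (V k l) : ℝ) : ℂ) = 0 := by
          rw [← hp]; push_cast
          exact Finset.sum_congr rfl fun l _ => by
            rw [Complex.normSq_eq_conj_mul_self]; rfl
        have h3 : ∑ l, Complex.normSq (V k l) = 0 := by exact_mod_cast h2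
        rw [Finset.sum_eq_zero_iff_of_nonneg fun l _ => Complex.normSq_nonneg _] at h3
        exact fun l => Complex.normSq_eq_zero.mp (h3 l (mem_univ _))
      rw [hV i hi k hkn]; simp [this]
    refine ⟨⟨fun i l => V i l - El G k k i / El G k k k * V k l, fun i hi j hj => ?_⟩,
      fun i hi j hj => ?_⟩
    · have e : ∑ l, star (V i l - El G k k i / El G k k k * V k l) *
          (V j l - El G k k j / El G k k k * V k l) =
          El G k i j - El G k k j / El G k k k * El G k i k -
            star (El G k k i / El G k k k) * (El G k k j - El G k k j / El G k k k * El G k k k) := by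
        generalize El G k k i / El G k k k = a
        generalize El G k k j / El G k k k = b
        rw [hV i hi j hj, hV i hi k hkn, hV k hkn j hj, hV k hkn k hkn]
        simp only [Finset.mul_sum, ← Finset.sum_sub_distrib, star_sub, star_mul']
        exact Finset.sum_congr rfl fun l _ => by ring
      rw [e]
      by_cases hp : El G k k k = 0
      · simp [El, hp]
      · rw [div_mul_cancel₀ _ hp]; simp only [El]; ring
    · rcases Nat.lt_succ_iff_lt_or_eq.mp hj with h1 | h1
      · simp [El, h0 i hi j h1, h0 k hkn j h1]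
      · rw [h1]
        by_cases hp : El G k k k = 0
        · simp [El, hz hp i hi]
        · simp only [El]; field_simp; ring

theorem El_prod {n : ℕ} (M : Matrix (Fin n) (Fin n) ℂ) (G : ℕ → ℕ → ℂ)
    (h : ∀ i j : Fin n, G i j = ∑ l, star (M l i) * M l j) :
    ∏ k ∈ range n, El G k k k = (Complex.normSq M.det : ℝ) := by
  let W : ℕ → Fin n → ℂ := fun i l => if h : i < n then M l ⟨i, h⟩ else 0
  have hW : ∀ i < n, ∀ j < n, G i j = ∑ l, star (W i l) * W j l := fun i hi j hj => by
    simp only [W, dif_pos hi, dif_pos hj]; exact h ⟨i, hi⟩ ⟨j, hj⟩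
  let F : ℕ → Matrix (Fin n) (Fin n) ℂ := fun k => Matrix.of fun i j =>
    if i.val < k then El G i i j else El G k i j
  have hF : ∀ k ≤ n, (F k).det = (Mᴴ * M).det := fun k hk => by
    induction k with
    | zero =>
      congr 1
      ext i j
      simp [F, El, h, Matrix.mul_apply]
    | succ k ih =>
      rw [← ih (by omega)]
      refine det_eq_of_forall_row_eq_smul_add_const
        (fun i : Fin n => if k < i.val then -(El G k i k / El G k k k) else 0) ⟨k, hk⟩ (by simp)
        fun i j => ?_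
      simp only [F, of_apply, lt_irrefl, if_false]
      rcases lt_trichotomy i.val k with h1 | h1 | h1
      · rw [if_pos h1, if_pos (by omega), if_neg (by omega)]; simp
      · rw [if_pos (by omega), if_neg (by omega), if_neg (by omega), h1]; simp
      · rw [if_neg (by omega), if_neg (by omega), if_pos h1]; simp only [El]; ring
  have h1 := hF n le_rfl
  rw [det_of_upperTriangular (M := F n) (fun i j hij => by
    have hij' : j.val < i.val := hij
    simp only [F, of_apply, if_pos i.2]
    exact (El_gram G W hW i i.2.le).2 i i.2 j hij'), det_mul, det_conjTranspose] at h1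
  rw [Finset.prod_range, Complex.normSq_eq_conj_mul_self]
  simp only [F, of_apply, Fin.is_lt, if_true] at h1
  exact h1

end Pool.Agent.H.Gap
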