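import Mathlib

set_option autoImplicit false

namespace Pool.Agent.H.Ram

/-- index expressions over the natural-number registers -/
inductive NE : Type
  | var (x : ℕ)
  | lit (c : ℕ)
  | add (a b : NE)
  | sub (a b : NE)

/-- complex expressions: memory cells, indices, the unit i, field operations, conjugation -/
inductive CE : Type
  | get (a : ℕ) (i j k : NE)
  | nat (e : NE)
  | imag
  | add (a b : CE)
  | sub (a b : CE)
  | mul (a b : CE)
  | div (a b : CE)
  | conj (a : CE)

/-- programs: assignments, sequencing, counted loops, branching on a real comparison -/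
inductive Cmd : Type
  | set (x : ℕ) (e : NE)
  | put (a : ℕ) (i j k : NE) (e : CE)
  | seq (c d : Cmd)
  | loop (x : ℕ) (b : NE) (c : Cmd)
  | test (e f : CE) (c d : Cmd)

/-- machine state: registers, memory of complex numbers, operation counter -/
structure St : Type where
  v : ℕ → ℕ
  m : ℕ × ℕ × ℕ × ℕ → ℂ
  cost : ℕ

def NE.ev (v : ℕ → ℕ) : NE → ℕ
  | .var x => v x
  | .lit c => c
  | .add a b => a.ev v + b.ev v
  | .sub a b => a.ev v - b.ev v

def NE.sz : NE → ℕ
  | .var _ => 1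
  | .lit _ => 1
  | .add a b => a.sz + b.sz + 1
  | .sub a b => a.sz + b.sz + 1

noncomputable def CE.ev (v : ℕ → ℕ) (m : ℕ × ℕ × ℕ × ℕ → ℂ) : CE → ℂ
  | .get a i j k => m (a, i.ev v, j.ev v, k.ev v)
  | .nat e => (e.ev v : ℂ)
  | .imag => Complex.I
  | .add a b => a.ev v m + b.ev v m
  | .sub a b => a.ev v m - b.ev v m
  | .mul a b => a.ev v m * b.ev v m
  | .div a b => a.ev v m / b.ev v m
  | .conj a => star (a.ev v m)

def CE.sz : CE → ℕ
  | .get _ i j k => i.sz + j.sz + k.sz + 1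
  | .nat e => e.sz + 1
  | .imag => 1
  | .add a b => a.sz + b.sz + 1
  | .sub a b => a.sz + b.sz + 1
  | .mul a b => a.sz + b.sz + 1
  | .div a b => a.sz + b.sz + 1
  | .conj a => a.sz + 1

noncomputable def Cmd.run : Cmd → St → St
  | .set x e, s => ⟨Function.update s.v x (e.ev s.v), s.m, s.cost + e.sz + 1⟩
  | .put a i j k e, s => ⟨s.v, Function.update s.m (a, i.ev s.v, j.ev s.v, k.ev s.v) (e.ev s.v s.m),
      s.cost + i.sz + j.sz + k.sz + e.sz + 1⟩
  | .seq c d, s => d.run (c.run s)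
  | .loop x b c, s => (List.range (b.ev s.v)).foldl
      (fun t i => c.run ⟨Function.update t.v x i, t.m, t.cost + 1⟩) ⟨s.v, s.m, s.cost + b.sz + 1⟩
  | .test e f c d, s =>
      if (e.ev s.v s.m).re ≤ (f.ev s.v s.m).re then c.run ⟨s.v, s.m, s.cost + e.sz + f.sz + 1⟩
      else d.run ⟨s.v, s.m, s.cost + e.sz + f.sz + 1⟩

/-- initial state: n in register 0, A in array 0, δ in array 1, everything else zero -/
noncomputable def input {n : ℕ} (A : Matrix (Fin n) (Fin n) ℂ) (δ : ℝ) : St :=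
  ⟨fun x => if x = 0 then n else 0,
   fun p => if h : p.1 = 0 ∧ p.2.1 = 0 ∧ p.2.2.1 < n ∧ p.2.2.2 < n then
      A ⟨p.2.2.1, h.2.2.1⟩ ⟨p.2.2.2, h.2.2.2⟩ else if p = (1, 0, 0, 0) then (δ : ℂ) else 0, 0⟩

end Pool.Agent.H.Ram
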