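import Mathlib
import Pool.Agent.H.MP_26b317_lc.Ram

set_option autoImplicit false

namespace Pool.Agent.H.Ram

open Finset

lemma loop_inv (x : ℕ) (b : NE) (c : Cmd) (s : St) (I : ℕ → St → Prop)
    (h0 : I 0 ⟨s.v, s.m, s.cost + b.sz + 1⟩)
    (hs : ∀ i < b.ev s.v, ∀ t, I i t → I (i + 1) (c.run ⟨Function.update t.v x i, t.m, t.cost + 1⟩)) :
    I (b.ev s.v) ((Cmd.loop x b c).run s) := by
  simp only [Cmd.run]
  generalize b.ev s.v = N at hs ⊢
  induction N with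
  | zero => simpa using h0
  | succ N ih =>
    rw [List.range_succ, List.foldl_append]
    exact hs N (Nat.lt_succ_self N) _ (ih fun i hi => hs i (by omega))

/-- cost bound -/
def Cmd.cb (v : ℕ → ℕ) : Cmd → ℕ
  | .set _ e => e.sz + 1
  | .put _ i j k e => i.sz + j.sz + k.sz + e.sz + 1
  | .seq c d => c.cb v + d.cb v
  | .loop _ b c => b.sz + 1 + b.ev v * (1 + c.cb v)
  | .test e f c d => e.sz + f.sz + 1 + (c.cb v + d.cb v)

def NE.ok (X : List ℕ) : NE → Bool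
  | .var x => x ∈ X
  | .lit _ => true
  | _ => false

def Cmd.ok (X : List ℕ) : Cmd → Bool
  | .set x _ => x ∉ X
  | .put _ _ _ _ _ => true
  | .seq c d => c.ok X && d.ok X
  | .loop x b c => x ∉ X && b.ok X && c.ok X
  | .test _ _ c d => c.ok X && d.ok X

lemma run_cost (X : List ℕ) (v : ℕ → ℕ) (c : Cmd) : c.ok X = true → ∀ s : St,
    (∀ x ∈ X, s.v x = v x) →
      (∀ x ∈ X, (c.run s).v x = v x) ∧ (c.run s).cost ≤ s.cost + c.cb v := by
  induction c with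
  | set x e =>
    intro h s hs
    simp only [Cmd.ok, decide_eq_true_eq] at h
    refine ⟨fun y hy => ?_, by simp only [Cmd.run, Cmd.cb]; omega⟩
    simp only [Cmd.run]
    rw [Function.update_of_ne (fun (e : y = x) => h (e ▸ hy))]
    exact hs y hy
  | put a i j k e => intro _ s hs; exact ⟨hs, by simp [Cmd.run, Cmd.cb]; omega⟩
  | seq c d ih1 ih2 =>
    intro h s hs
    simp only [Cmd.ok, Bool.and_eq_true] at h
    obtain ⟨a1, a2⟩ := ih1 h.1 s hs
    obtain ⟨b1, b2⟩ := ih2 h.2 _ a1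
    exact ⟨b1, by simp only [Cmd.run, Cmd.cb]; omega⟩
  | loop x b c ih =>
    intro h s hs
    simp only [Cmd.ok, Bool.and_eq_true, decide_eq_true_eq] at h
    have hb : b.ev s.v = b.ev v := by
      cases b with
      | var y => exact hs y (by simpa [NE.ok] using h.1.2)
      | lit _ => rfl
      | add _ _ => simp [NE.ok] at h
      | sub _ _ => simp [NE.ok] at h
    have := loop_inv x b c s (fun i t => (∀ x ∈ X, t.v x = v x) ∧
      t.cost ≤ s.cost + b.sz + 1 + i * (1 + c.cb v)) ⟨hs, by simp⟩ (fun i _ t ht => by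
        obtain ⟨a1, a2⟩ := ih h.2 ⟨Function.update t.v x i, t.m, t.cost + 1⟩ (fun y hy => by
          simp only
          rw [Function.update_of_ne (fun (e : y = x) => h.1.1 (e ▸ hy))]
          exact ht.1 y hy)
        refine ⟨a1, a2.trans ?_⟩
        have := ht.2
        simp only [add_mul, one_mul]
        omega)
    rw [hb] at this
    exact ⟨this.1, by simp only [Cmd.cb]; omega⟩
  | test e f c d ih1 ih2 =>
    intro h s hs
    simp only [Cmd.ok, Bool.and_eq_true] at h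
    simp only [Cmd.run, Cmd.cb]
    split_ifs
    · obtain ⟨a1, a2⟩ := ih1 h.1 ⟨s.v, s.m, s.cost + e.sz + f.sz + 1⟩ hs
      exact ⟨a1, by simp only at a2; omega⟩
    · obtain ⟨a1, a2⟩ := ih2 h.2 ⟨s.v, s.m, s.cost + e.sz + f.sz + 1⟩ hs
      exact ⟨a1, by simp only at a2; omega⟩

def row (a : ℕ) (k : NE) (e : CE) : Cmd := .loop 3 (.var 0) (.put a k (.var 2) (.var 3) e)

def fill (a : ℕ) (k : NE) (e : CE) : Cmd := .loop 2 (.var 0) (row a k e)

lemma fill_spec (a : ℕ) (k : NE) (e : CE) (s : St) (κ : ℕ) (g : ℕ → ℕ → ℂ)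
    (hk : ∀ v' : ℕ → ℕ, (∀ x, x ≠ 2 → x ≠ 3 → v' x = s.v x) → k.ev v' = κ)
    (he : ∀ (v' : ℕ → ℕ) (m' : ℕ × ℕ × ℕ × ℕ → ℂ), (∀ x, x ≠ 2 → x ≠ 3 → v' x = s.v x) →
      v' 2 < s.v 0 → v' 3 < s.v 0 → (∀ p, ¬(p.1 = a ∧ p.2.1 = κ) → m' p = s.m p) →
      e.ev v' m' = g (v' 2) (v' 3)) :
    (∀ i < s.v 0, ∀ j < s.v 0, ((fill a k e).run s).m (a, κ, i, j) = g i j) ∧
      (∀ p, ¬(p.1 = a ∧ p.2.1 = κ) → ((fill a k e).run s).m p = s.m p) ∧
      ∀ x, x ≠ 2 → x ≠ 3 → ((fill a k e).run s).v x = s.v x := by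
  refine loop_inv 2 (.var 0) (row a k e) s (fun r t =>
    (∀ i < r, ∀ j < s.v 0, t.m (a, κ, i, j) = g i j) ∧
      (∀ p, ¬(p.1 = a ∧ p.2.1 = κ) → t.m p = s.m p) ∧ ∀ x, x ≠ 2 → x ≠ 3 → t.v x = s.v x)
    ⟨fun i hi => absurd hi (Nat.not_lt_zero i), fun _ _ => rfl, fun _ _ _ => rfl⟩ ?_
  intro r hr t ⟨h1, h2, h3⟩
  have h0 : (NE.var 0).ev (Function.update t.v 2 r) = s.v 0 := by
    simp [NE.ev, h3 0]
  have := loop_inv 3 (.var 0) (.put a k (.var 2) (.var 3) e)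
    ⟨Function.update t.v 2 r, t.m, t.cost + 1⟩ (fun c u =>
    (∀ i < r, ∀ j < s.v 0, u.m (a, κ, i, j) = g i j) ∧ (∀ j < c, u.m (a, κ, r, j) = g r j) ∧
      (∀ p, ¬(p.1 = a ∧ p.2.1 = κ) → u.m p = s.m p) ∧ (∀ x, x ≠ 2 → x ≠ 3 → u.v x = s.v x) ∧
      u.v 2 = r)
    ⟨h1, fun j hj => absurd hj (Nat.not_lt_zero j), h2, fun x hx hx' => by
      simp [Function.update_of_ne hx, h3 x hx hx'], by simp⟩ (by
      intro c hc u ⟨a1, a2, a3, a4, a5⟩
      simp only [h0] at hc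
      have hv : ∀ x, x ≠ 2 → x ≠ 3 → Function.update u.v 3 c x = s.v x := fun x hx hx' => by
        rw [Function.update_of_ne hx', a4 x hx hx']
      have hv2 : Function.update u.v 3 c 2 = r := by simp [a5]
      have hv3 : Function.update u.v 3 c 3 = c := by simp
      simp only [Cmd.run, NE.ev, hk _ hv, hv2, hv3]
      rw [he _ _ hv (by rw [hv2]; exact hr) (by rw [hv3]; exact hc) a3, hv2, hv3]
      refine ⟨fun i hi j hj => ?_, fun j hj => ?_, fun p hp => ?_, hv, trivial⟩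
      · rw [Function.update_of_ne (by simp; omega), a1 i hi j hj]
      · rcases Nat.lt_succ_iff_lt_or_eq.mp hj with h | h
        · rw [Function.update_of_ne (by simp; omega), a2 j h]
        · rw [h, Function.update_self]
      · rw [Function.update_of_ne (fun e => hp (by rw [e]; exact ⟨rfl, rfl⟩)), a3 p hp])
  simp only [h0] at this
  obtain ⟨a1, a2, a3, a4, -⟩ := this
  refine ⟨fun i hi j hj => ?_, a3, a4⟩
  rcases Nat.lt_succ_iff_lt_or_eq.mp hi with h | h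
  · exact a1 i h j hj
  · rw [h]; exact a2 j hj

def layers (a : ℕ) (e0 e1 : CE) : Cmd :=
  .seq (fill a (.lit 0) e0) (.loop 1 (.var 0) (fill a (.add (.var 1) (.lit 1)) e1))

lemma layers_spec (a : ℕ) (e0 e1 : CE) (s : St) (n : ℕ) (hn : s.v 0 = n) (f : ℕ → ℕ → ℕ → ℂ)
    (h0 : ∀ (v' : ℕ → ℕ) (m' : ℕ × ℕ × ℕ × ℕ → ℂ), v' 0 = n → v' 2 < n → v' 3 < n →
      (∀ p, p.1 ≠ a → m' p = s.m p) → e0.ev v' m' = f 0 (v' 2) (v' 3))
    (h1 : ∀ (v' : ℕ → ℕ) (m' : ℕ × ℕ × ℕ × ℕ → ℂ), v' 0 = n → v' 1 < n → v' 2 < n → v' 3 < n →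
      (∀ p, p.1 ≠ a → m' p = s.m p) → (∀ i < n, ∀ j < n, m' (a, v' 1, i, j) = f (v' 1) i j) →
      e1.ev v' m' = f (v' 1 + 1) (v' 2) (v' 3)) :
    (∀ k ≤ n, ∀ i < n, ∀ j < n, ((layers a e0 e1).run s).m (a, k, i, j) = f k i j) ∧
      (∀ p, p.1 ≠ a → ((layers a e0 e1).run s).m p = s.m p) ∧
      ∀ x, x = 0 ∨ 3 < x → ((layers a e0 e1).run s).v x = s.v x := by
  subst hn
  obtain ⟨a1, a2, a3⟩ := fill_spec a (.lit 0) e0 s 0 (f 0) (fun _ _ => rfl)
    (fun v' m' b1 b2 b3 b4 => h0 v' m' (b1 0 (by simp) (by simp)) b2 b3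
      fun p hp => b4 p fun h => hp h.1)
  set s1 := (fill a (.lit 0) e0).run s
  have hs1 : s1.v 0 = s.v 0 := a3 0 (by simp) (by simp)
  have := loop_inv 1 (.var 0) (fill a (.add (.var 1) (.lit 1)) e1) s1 (fun r t =>
    (∀ k ≤ r, ∀ i < s.v 0, ∀ j < s.v 0, t.m (a, k, i, j) = f k i j) ∧
      (∀ p, p.1 ≠ a → t.m p = s.m p) ∧ ∀ x, x = 0 ∨ 3 < x → t.v x = s.v x)
    ⟨fun k hk => by rw [Nat.le_zero.mp hk]; exact a1, fun p hp => a2 p fun h => hp h.1,
      fun x hx => a3 x (by omega) (by omega)⟩ (by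
      intro r hr t ⟨c1, c2, c3⟩
      simp only [NE.ev, hs1] at hr
      have e0' : Function.update t.v 1 r 0 = s.v 0 := by simp [c3 0]
      obtain ⟨d1, d2, d3⟩ := fill_spec a (.add (.var 1) (.lit 1)) e1
        ⟨Function.update t.v 1 r, t.m, t.cost + 1⟩ (r + 1) (f (r + 1))
        (fun v' hv => by simp [NE.ev, hv 1])
        (fun v' m' b1 b2 b3 b4 => by
          have e1' : v' 1 = r := by simp [b1 1]
          simp only [e0'] at b2 b3
          rw [← e1']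
          refine h1 v' m' ((b1 0 (by simp) (by simp)).trans e0') (e1' ▸ hr) b2 b3
            (fun p hp => (b4 p fun h => hp h.1).trans (c2 p hp)) fun i hi j hj => ?_
          rw [b4 _ (by simp [e1']), e1']
          exact c1 r le_rfl i hi j hj)
      simp only [e0'] at d1
      refine ⟨fun k hk i hi j hj => ?_, fun p hp => (d2 p fun h => hp h.1).trans (c2 p hp),
        fun x hx => (d3 x (by omega) (by omega)).trans ?_⟩
      · rcases Nat.le_succ_iff.mp hk with h | h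
        · rw [d2 _ (by simp; omega)]; exact c1 k h i hi j hj
        · rw [h]; exact d1 i hi j hj
      · simp only
        rw [Function.update_of_ne (by omega), c3 x hx])
  simp only [NE.ev, hs1] at this
  exact this

end Pool.Agent.H.Ram
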