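import Mathlib
import Pool.Agent.H.MP_26b317_lc.C
import Pool.Agent.H.MP_26b317_lc.D
import Pool.Agent.H.MP_26b317_lc.E

set_option autoImplicit false

namespace Pool.Agent.H.Ram

open Finset Matrix Pool.Agent.H.Gap

def ext {n : ℕ} (B : Matrix (Fin n) (Fin n) ℂ) (i j : ℕ) : ℂ :=
  if h : i < n ∧ j < n then B ⟨i, h.1⟩ ⟨j, h.2⟩ else 0

lemma ext_fin {n : ℕ} (B : Matrix (Fin n) (Fin n) ℂ) (i j : Fin n) : ext B i j = B i j := by
  simp [ext]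

lemma sum_three {n u : ℕ} (F : ℕ → ℂ) (hu : u < n) (h1 : F n = 0)
    (h2 : ∀ w, w + 1 < u ∨ u + 1 < w → F w = 0) :
    ∑ w ∈ range n, F w = F u + F (u + 1) + ((u - (u - 1) : ℕ) : ℂ) * F (u - 1) := by
  have e : ∑ w ∈ range n, F w = ∑ w ∈ range (n + 1), F w := by rw [sum_range_succ, h1, add_zero]
  rw [e]
  cases u with
  | zero =>
    rw [← Finset.sum_subset (s₁ := {0, 1}) (by intro w; simp; omega)
      (fun w _ hw => h2 w (by simp at hw; omega))]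
    simp
  | succ u =>
    rw [← Finset.sum_subset (s₁ := {u, u + 1, u + 2}) (by intro w; simp; omega)
      (fun w _ hw => h2 w (by simp at hw; omega))]
    rw [sum_insert (by simp), sum_insert (by simp), sum_singleton]
    simp
    ring

lemma ext_pow_succ {n : ℕ} {A : Matrix (Fin n) (Fin n) ℂ} (hT : Tri A) (z : ℂ) (k u v : ℕ)
    (hu : u < n) (hv : v < n) :
    ext (Hz A z ^ (k + 1)) u v = (ext A u u + z * (u : ℂ) / n) * ext (Hz A z ^ k) u v +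
      ext A u (u + 1) * ext (Hz A z ^ k) (u + 1) v +
      ((u - (u - 1) : ℕ) : ℂ) * (ext A u (u - 1) * ext (Hz A z ^ k) (u - 1) v) := by
  have e1 : ext (Hz A z ^ (k + 1)) u v =
      ∑ w ∈ range n, ext A u w * ext (Hz A z ^ k) w v + z * (u : ℂ) / n * ext (Hz A z ^ k) u v := by
    have := ext_fin (Hz A z ^ (k + 1)) ⟨u, hu⟩ ⟨v, hv⟩
    simp only at this
    rw [this, pow_succ', Finset.sum_range]
    have h2 := ext_fin (Hz A z ^ k) ⟨u, hu⟩ ⟨v, hv⟩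
    simp only at h2
    rw [h2]
    conv_lhs => rw [Hz, add_mul, Matrix.add_apply, diagonal_mul, Matrix.mul_apply]
    congr 1
    · refine Finset.sum_congr rfl fun w _ => ?_
      rw [← ext_fin A]
      exact congrArg _ (ext_fin (Hz A z ^ k) w ⟨v, hv⟩).symm
    · simp only [Hz]; ring
  rw [e1, sum_three (fun w => ext A u w * ext (Hz A z ^ k) w v) hu (by simp [ext])
    (fun w hw => by
      by_cases h : w < n
      · have := hT ⟨u, hu⟩ ⟨w, h⟩ hw.symm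
        simp [ext, hu, h, this]
      · simp [ext, h])]
  ring

def x1 : NE := .var 1
def x2 : NE := .var 2
def x3 : NE := .var 3
def sc (a : ℕ) : CE := .get a (.lit 0) (.lit 0) (.lit 0)

def cP : Cmd := layers 4 (.nat (.sub (.lit 1) (.add (.sub x2 x3) (.sub x3 x2))))
  (.add (.add
    (.mul (.add (.get 0 (.lit 0) x2 x2) (.div (.mul (sc 3) (.nat x2)) (.nat (.var 0))))
      (.get 4 x1 x2 x3))
    (.mul (.get 0 (.lit 0) x2 (.add x2 (.lit 1))) (.get 4 x1 (.add x2 (.lit 1)) x3)))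
    (.mul (.nat (.sub x2 (.sub x2 (.lit 1))))
      (.mul (.get 0 (.lit 0) x2 (.sub x2 (.lit 1))) (.get 4 x1 (.sub x2 (.lit 1)) x3))))

def cS : Cmd := layers 5 (.nat (.lit 0))
  (.add (.get 5 x1 x2 x3) (.mul (.conj (.get 4 x2 x1 x1)) (.get 4 x3 x1 x1)))

def cL : Cmd := layers 6 (.get 5 (.var 0) x2 x3)
  (.sub (.get 6 x1 x2 x3) (.div (.mul (.get 6 x1 x2 x1) (.get 6 x1 x1 x3)) (.get 6 x1 x1 x1)))

def cD : Cmd := layers 7 (.nat (.lit 1)) (.mul (.get 7 x1 x2 x3) (.get 6 x1 x1 x1))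

def cQ : Cmd := .seq cP (.seq cS (.seq cL cD))

lemma cP_spec {n : ℕ} {A : Matrix (Fin n) (Fin n) ℂ} (hT : Tri A) (s : St)
    (h0 : s.v 0 = n) (hA : ∀ i j, s.m (0, 0, i, j) = ext A i j) (z : ℂ) (hz : s.m (3, 0, 0, 0) = z) :
    (∀ k ≤ n, ∀ i < n, ∀ j < n, (cP.run s).m (4, k, i, j) = ext (Hz A z ^ k) i j) ∧
      (∀ p, p.1 ≠ 4 → (cP.run s).m p = s.m p) ∧ ∀ x, x = 0 ∨ 3 < x → (cP.run s).v x = s.v x := by
  unfold cP
  refine layers_spec _ _ _ s n h0 (fun k i j => ext (Hz A z ^ k) i j) (fun v m _ b2 b3 _ => ?_)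
    (fun v m b0 b1 b2 b3 b4 b5 => ?_)
  · simp only [CE.ev, NE.ev, x2, x3, pow_zero, ext, b2, b3, and_self, dif_pos, one_apply,
      Fin.mk.injEq]
    split_ifs with h
    · simp [h]
    · rw [show 1 - (v 2 - v 3 + (v 3 - v 2)) = 0 by omega]; simp
  · simp only [CE.ev, NE.ev, x1, x2, x3, sc, b0]
    rw [ext_pow_succ hT z _ _ _ b2 b3, b4 (0, 0, v 2, v 2) (by simp),
      b4 (0, 0, v 2, v 2 + 1) (by simp), b4 (0, 0, v 2, v 2 - 1) (by simp),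
      b4 (3, 0, 0, 0) (by simp), hA, hA, hA, b5 _ b2 _ b3, b5 (v 2 - 1) (by omega) _ b3, hz]
    by_cases h : v 2 + 1 < n
    · rw [b5 _ h _ b3]
    · simp [ext, h]

lemma cS_spec {n : ℕ} (s : St) (h0 : s.v 0 = n) (P : ℕ → ℕ → ℂ)
    (hP : ∀ k < n, ∀ w < n, s.m (4, k, w, w) = P k w) :
    (∀ k ≤ n, ∀ i < n, ∀ j < n, (cS.run s).m (5, k, i, j) = ∑ w ∈ range k, star (P i w) * P j w) ∧
      (∀ p, p.1 ≠ 5 → (cS.run s).m p = s.m p) ∧ ∀ x, x = 0 ∨ 3 < x → (cS.run s).v x = s.v x := by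
  unfold cS
  refine layers_spec _ _ _ s n h0 (fun l i j => ∑ w ∈ range l, star (P i w) * P j w)
    (fun v m _ _ _ _ => by simp [CE.ev, NE.ev]) (fun v m _ c1 c2 c3 c4 c5 => ?_)
  simp only [CE.ev, NE.ev, x1, x2, x3]
  rw [c5 _ c2 _ c3, c4 (4, v 2, v 1, v 1) (by simp), c4 (4, v 3, v 1, v 1) (by simp),
    hP _ c2 _ c1, hP _ c3 _ c1, sum_range_succ]

lemma cL_spec {n : ℕ} (s : St) (h0 : s.v 0 = n) (G : ℕ → ℕ → ℂ)
    (hG : ∀ i < n, ∀ j < n, s.m (5, n, i, j) = G i j) :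
    (∀ k ≤ n, ∀ i < n, ∀ j < n, (cL.run s).m (6, k, i, j) = El G k i j) ∧
      (∀ p, p.1 ≠ 6 → (cL.run s).m p = s.m p) ∧ ∀ x, x = 0 ∨ 3 < x → (cL.run s).v x = s.v x := by
  unfold cL
  refine layers_spec _ _ _ s n h0 (El G) (fun v m d0 d2 d3 d4 => ?_)
    (fun v m _ d1 d2 d3 _ d5 => ?_)
  · simp only [CE.ev, NE.ev, x2, x3, d0]
    rw [d4 (5, n, v 2, v 3) (by simp), hG _ d2 _ d3, El]
  · simp only [CE.ev, NE.ev, x1, x2, x3]
    rw [d5 _ d2 _ d3, d5 _ d2 _ d1, d5 _ d1 _ d3, d5 _ d1 _ d1, El]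

lemma cD_spec {n : ℕ} (s : St) (h0 : s.v 0 = n) (g : ℕ → ℂ)
    (hg : ∀ k < n, s.m (6, k, k, k) = g k) :
    (∀ k ≤ n, ∀ i < n, ∀ j < n, (cD.run s).m (7, k, i, j) = ∏ w ∈ range k, g w) ∧
      (∀ p, p.1 ≠ 7 → (cD.run s).m p = s.m p) ∧ ∀ x, x = 0 ∨ 3 < x → (cD.run s).v x = s.v x := by
  unfold cD
  refine layers_spec _ _ _ s n h0 (fun k _ _ => ∏ w ∈ range k, g w)
    (fun v m _ _ _ _ => by simp [CE.ev, NE.ev]) (fun v m _ e1 e2 e3 e4 e5 => ?_)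
  simp only [CE.ev, NE.ev, x1, x2, x3]
  rw [e5 _ e2 _ e3, e4 (6, v 1, v 1, v 1) (by simp), hg _ e1, prod_range_succ]

lemma cQ_spec {n : ℕ} (hn : 0 < n) {A : Matrix (Fin n) (Fin n) ℂ} (hT : Tri A) (s : St)
    (h0 : s.v 0 = n) (hA : ∀ i j, s.m (0, 0, i, j) = ext A i j) (z : ℂ)
    (hz : s.m (3, 0, 0, 0) = z) :
    (cQ.run s).m (7, n, 0, 0) = (Complex.normSq (MM (Hz A z)).det : ℝ) ∧
      (∀ p, p.1 < 4 ∨ 7 < p.1 → (cQ.run s).m p = s.m p) ∧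
      ∀ x, x = 0 ∨ 3 < x → (cQ.run s).v x = s.v x := by
  have e : cQ.run s = cD.run (cL.run (cS.run (cP.run s))) := by simp only [cQ, Cmd.run]
  rw [e]
  obtain ⟨a1, a2, a3⟩ := cP_spec hT s h0 hA z hz
  generalize cP.run s = s1 at *
  obtain ⟨P, hP⟩ : ∃ P : ℕ → ℕ → ℂ, P = fun k w => ext (Hz A z ^ k) w w := ⟨_, rfl⟩
  obtain ⟨b1, b2, b3⟩ := cS_spec s1 ((a3 0 (by simp)).trans h0) P
    (fun k hk w hw => by rw [a1 k hk.le w hw w hw, hP])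
  generalize cS.run s1 = s2 at *
  obtain ⟨G, hG⟩ : ∃ G : ℕ → ℕ → ℂ, G = fun i j => ∑ w ∈ range n, star (P i w) * P j w := ⟨_, rfl⟩
  obtain ⟨c1, c2, c3⟩ := cL_spec s2 ((b3 0 (by simp)).trans ((a3 0 (by simp)).trans h0)) G
    (fun i hi j hj => by rw [b1 n le_rfl i hi j hj, hG])
  generalize cL.run s2 = s3 at *
  obtain ⟨d1, d2, d3⟩ := cD_spec s3
    ((c3 0 (by simp)).trans ((b3 0 (by simp)).trans ((a3 0 (by simp)).trans h0)))
    (fun k => El G k k k) (fun k hk => c1 k hk.le k hk k hk)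
  generalize cD.run s3 = s4 at *
  refine ⟨(d1 n le_rfl 0 hn 0 hn).trans (El_prod _ G fun i j => ?_), fun p hp => ?_, fun x hx => ?_⟩
  · simp only [hG, hP]
    rw [Finset.sum_range]
    exact Finset.sum_congr rfl fun l _ => by rw [ext_fin, ext_fin]; simp only [MM, of_apply]
  · exact (d2 p (by omega)).trans ((c2 p (by omega)).trans ((b2 p (by omega)).trans
      (a2 p (by omega))))
  · exact (d3 x hx).trans ((c3 x hx).trans ((b3 x hx).trans (a3 x hx)))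

end Pool.Agent.H.Ram
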