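import Mathlib
import Pool.Agent.H.MP_26b317_lc.F

set_option autoImplicit false

namespace Pool.Agent.H.Ram

open Finset Matrix Pool.Agent.H.Gap

def st (a : ℕ) (e : CE) : Cmd := .put a (.lit 0) (.lit 0) (.lit 0) e

lemma st_run (a : ℕ) (e : CE) (s : St) : ((st a e).run s).v = s.v ∧
    ((st a e).run s).m (a, 0, 0, 0) = e.ev s.v s.m ∧
    ∀ p, p.1 ≠ a → ((st a e).run s).m p = s.m p := by
  refine ⟨rfl, by simp [st, Cmd.run, NE.ev], fun p hp => ?_⟩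
  simp only [st, Cmd.run]
  rw [Function.update_of_ne (fun e => hp (by rw [e]))]

def qq : CE := .get 7 (.var 0) (.lit 0) (.lit 0)

def cV : Cmd :=
  .seq (st 13 (.add (sc 8) (.mul (.nat (.var 7)) (sc 9))))
  (.seq (st 3 (.add (sc 13) (.mul (.mul (.nat (.lit 2)) (sc 9)) .imag)))
  (.seq cQ (.seq (st 12 qq)
  (.seq (st 3 (.add (sc 13) (.mul (sc 9) .imag)))
  (.seq cQ (st 14 (.div (sc 12) qq)))))))

lemma cV_spec {n : ℕ} (hn : 0 < n) {A : Matrix (Fin n) (Fin n) ℂ} (hT : Tri A)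
    {R : Multiset ℝ} {c : ℝ} (hc : 0 < c)
    (hR : ∀ x y : ℝ, Complex.normSq (MM (Hz A (x + y * Complex.I))).det =
        c * (R.map fun r => (x - r) ^ 2 + y ^ 2).prod) (s : St)
    (h0 : s.v 0 = n) (hA : ∀ i j, s.m (0, 0, i, j) = ext A i j) (t σ : ℝ)
    (ht : s.m (8, 0, 0, 0) = t) (hσ : s.m (9, 0, 0, 0) = σ) :
    (cV.run s).m (13, 0, 0, 0) = (t + s.v 7 * σ : ℝ) ∧
    (cV.run s).m (14, 0, 0, 0) = GG R (t + s.v 7 * σ) σ ∧
      (∀ p, p.1 < 3 ∨ (7 < p.1 ∧ p.1 < 12) → (cV.run s).m p = s.m p) ∧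
      ∀ x, x = 0 ∨ 3 < x → (cV.run s).v x = s.v x := by
  simp only [cV, Cmd.run]
  obtain ⟨a1, a2, a3⟩ := st_run 13 (.add (sc 8) (.mul (.nat (.var 7)) (sc 9))) s
  generalize (st 13 _).run s = s1 at *
  simp only [CE.ev, NE.ev, sc, ht, hσ] at a2
  have a2' : s1.m (13, 0, 0, 0) = (t + s.v 7 * σ : ℝ) := by rw [a2]; push_cast; rfl
  obtain ⟨b1, b2, b3⟩ := st_run 3 (.add (sc 13) (.mul (.mul (.nat (.lit 2)) (sc 9)) .imag)) s1
  generalize (st 3 _).run s1 = s2 at *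
  simp only [CE.ev, NE.ev, sc, a2', a3 (9, 0, 0, 0) (by simp), hσ] at b2
  obtain ⟨c1, c2, c3⟩ := cQ_spec hn hT s2 (by rw [b1, a1, h0])
    (fun i j => by rw [b3 _ (by simp), a3 _ (by simp), hA])
    ((t + s.v 7 * σ : ℝ) + (2 * σ : ℝ) * Complex.I) (by rw [b2]; push_cast; rfl)
  generalize cQ.run s2 = s3 at *
  rw [hR] at c1
  have n3 : s3.v 0 = n := by rw [c3 0 (by simp), b1, a1, h0]
  obtain ⟨d1, d2, d3⟩ := st_run 12 qq s3
  generalize (st 12 _).run s3 = s4 at *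
  simp only [CE.ev, NE.ev, qq, n3, c1] at d2
  obtain ⟨e1, e2, e3⟩ := st_run 3 (.add (sc 13) (.mul (sc 9) .imag)) s4
  generalize (st 3 _).run s4 = s5 at *
  simp only [CE.ev, NE.ev, sc] at e2
  rw [d3 _ (by simp), c2 _ (by simp), b3 _ (by simp), a2', d3 _ (by simp), c2 _ (by simp),
    b3 _ (by simp), a3 _ (by simp), hσ] at e2
  obtain ⟨f1, f2, f3⟩ := cQ_spec hn hT s5 (by rw [e1, d1, n3])
    (fun i j => by rw [e3 _ (by simp), d3 _ (by simp), c2 _ (by simp), b3 _ (by simp),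
      a3 _ (by simp), hA]) _ e2
  generalize cQ.run s5 = s6 at *
  rw [hR] at f1
  have n6 : s6.v 0 = n := by rw [f3 0 (by simp), e1, d1, n3]
  obtain ⟨g1, g2, g3⟩ := st_run 14 (.div (sc 12) qq) s6
  generalize (st 14 _).run s6 = s7 at *
  simp only [CE.ev, NE.ev, qq, sc, n6, f1] at g2
  refine ⟨?_, ?_, fun p hp => ?_, fun x hx => ?_⟩
  · rw [g3 _ (by simp), f2 _ (by simp), e3 _ (by simp), d3 _ (by simp), c2 _ (by simp),
      b3 _ (by simp), a2']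
  · rw [g2, f2 _ (by simp), e3 _ (by simp), d2, ← Complex.ofReal_div, GG_eq _ _ _ hc]
  · rw [g3 _ (by omega), f2 _ (by omega), e3 _ (by omega), d3 _ (by omega), c2 _ (by omega),
      b3 _ (by omega), a3 _ (by omega)]
  · rw [g1, f3 x hx, e1, d1, c3 x hx, b1, a1]

def cU : Cmd := .test (.mul (sc 14) (.nat (.var 7))) (.mul (sc 10) (.nat (.var 7)))
  (.seq (st 10 (sc 14)) (st 11 (sc 13))) (.set 2 (.lit 0))

lemma cU_spec (s : St) :
    (if (s.m (14, 0, 0, 0) * s.v 7).re ≤ (s.m (10, 0, 0, 0) * s.v 7).re then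
      (cU.run s).m (10, 0, 0, 0) = s.m (14, 0, 0, 0) ∧ (cU.run s).m (11, 0, 0, 0) = s.m (13, 0, 0, 0)
      else (cU.run s).m (10, 0, 0, 0) = s.m (10, 0, 0, 0) ∧
        (cU.run s).m (11, 0, 0, 0) = s.m (11, 0, 0, 0)) ∧
      (∀ p, p.1 < 10 → (cU.run s).m p = s.m p) ∧ ∀ x, x = 0 ∨ 3 < x → (cU.run s).v x = s.v x := by
  simp only [cU, Cmd.run, CE.ev, NE.ev, sc, st]
  split_ifs with h
  · refine ⟨⟨by simp, by simp⟩, fun p hp => ?_, fun _ _ => rfl⟩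
    simp only
    rw [Function.update_of_ne (fun e => by rw [e] at hp; simp at hp),
      Function.update_of_ne (fun e => by rw [e] at hp; simp at hp)]
  · exact ⟨⟨rfl, rfl⟩, fun _ _ => rfl, fun x hx => Function.update_of_ne (by omega) _ _⟩

def cI : Cmd := .loop 7 (.lit 64) (.seq cV cU)

lemma cI_spec {n : ℕ} (hn : 0 < n) {A : Matrix (Fin n) (Fin n) ℂ} (hT : Tri A)
    {R : Multiset ℝ} {c : ℝ} (hc : 0 < c)
    (hR : ∀ x y : ℝ, Complex.normSq (MM (Hz A (x + y * Complex.I))).det =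
        c * (R.map fun r => (x - r) ^ 2 + y ^ 2).prod) (s : St)
    (h0 : s.v 0 = n) (hA : ∀ i j, s.m (0, 0, i, j) = ext A i j) (t σ : ℝ)
    (ht : s.m (8, 0, 0, 0) = t) (hσ : s.m (9, 0, 0, 0) = σ) :
    (∃ m0 < 64, (cI.run s).m (11, 0, 0, 0) = (t + (m0 : ℕ) * σ : ℝ) ∧
      ∀ m < 64, GG R (t + m0 * σ) σ ≤ GG R (t + (m : ℕ) * σ) σ) ∧
      (∀ p, p.1 < 3 ∨ p.1 = 8 ∨ p.1 = 9 → (cI.run s).m p = s.m p) ∧ (cI.run s).v 0 = n := by
  have := loop_inv 7 (.lit 64) (.seq cV cU) s (fun i u =>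
    (0 < i → ∃ m0 < i, u.m (11, 0, 0, 0) = (t + (m0 : ℕ) * σ : ℝ) ∧
      u.m (10, 0, 0, 0) = GG R (t + m0 * σ) σ ∧
      ∀ m < i, GG R (t + m0 * σ) σ ≤ GG R (t + (m : ℕ) * σ) σ) ∧
      (∀ p, p.1 < 3 ∨ p.1 = 8 ∨ p.1 = 9 → u.m p = s.m p) ∧ u.v 0 = n)
    ⟨fun h => absurd h (lt_irrefl 0), fun _ _ => rfl, h0⟩ (by
      intro i _ u ⟨h1, h2, h3⟩
      simp only [Cmd.run]
      obtain ⟨a1, a2, a3, a4⟩ := cV_spec hn hT hc hR ⟨Function.update u.v 7 i, u.m, u.cost + 1⟩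
        (by simp [h3]) (fun i j => by simp only; rw [h2 _ (by simp), hA]) t σ
        (by simp only; rw [h2 _ (by simp), ht]) (by simp only; rw [h2 _ (by simp), hσ])
      generalize cV.run _ = w at *
      simp only [Function.update_self] at a1 a2 a3 a4
      have w7 : w.v 7 = i := by rw [a4 7 (by simp)]; simp
      obtain ⟨b1, b2, b3⟩ := cU_spec w
      generalize cU.run w = y at *
      refine ⟨fun _ => ?_, fun p hp => by rw [b2 p (by omega), a3 p (by omega), h2 p hp], ?_⟩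
      · rw [w7, a1, a2, a3 (10, 0, 0, 0) (by simp), a3 (11, 0, 0, 0) (by simp)] at b1
        rcases Nat.eq_zero_or_pos i with hi | hi
        · subst hi
          rw [if_pos (by simp)] at b1
          exact ⟨0, by simp, b1.2, b1.1, fun m hm => by rw [Nat.lt_one_iff.mp hm]⟩
        · obtain ⟨m0, hm0, e1, e2, e3⟩ := h1 hi
          have hi' : (0 : ℝ) < i := by exact_mod_cast hi
          rw [e1, e2] at b1
          split_ifs at b1 with h
          · have h' : GG R (t + i * σ) σ ≤ GG R (t + m0 * σ) σ := by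
              simp only [Complex.mul_re, Complex.ofReal_re, Complex.natCast_re, Complex.natCast_im,
                mul_zero, sub_zero] at h
              exact le_of_mul_le_mul_right h hi'
            refine ⟨i, by simp, b1.2, b1.1, fun m hm => ?_⟩
            rcases Nat.lt_succ_iff_lt_or_eq.mp hm with h4 | h4
            · exact h'.trans (e3 m h4)
            · rw [h4]
          · have h' : GG R (t + m0 * σ) σ ≤ GG R (t + i * σ) σ := by
              simp only [Complex.mul_re, Complex.ofReal_re, Complex.natCast_re, Complex.natCast_im,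
                mul_zero, sub_zero, not_le] at h
              exact (lt_of_mul_lt_mul_right h hi'.le).le
            refine ⟨m0, by omega, b1.2, b1.1, fun m hm => ?_⟩
            rcases Nat.lt_succ_iff_lt_or_eq.mp hm with h4 | h4
            · exact e3 m h4
            · rw [h4]; exact h'
      · rw [b3 0 (by simp), a4 0 (by simp)]; simp [h3])
  obtain ⟨h1, h2, h3⟩ := this
  obtain ⟨m0, hm0, e1, -, e3⟩ := h1 (by simp [NE.ev])
  exact ⟨⟨m0, hm0, e1, e3⟩, h2, h3⟩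

def cO : Cmd := .loop 6 (.var 5)
  (.seq (st 9 (.div (sc 9) (.nat (.lit 64)))) (.seq cI (st 8 (sc 11))))

lemma cO_spec {n : ℕ} (hn : 0 < n) {A : Matrix (Fin n) (Fin n) ℂ} (hT : Tri A)
    {R : Multiset ℝ} {c : ℝ} (hc : 0 < c)
    (hR : ∀ x y : ℝ, Complex.normSq (MM (Hz A (x + y * Complex.I))).det =
        c * (R.map fun r => (x - r) ^ 2 + y ^ 2).prod) (s : St)
    (h0 : s.v 0 = n) (hA : ∀ i j, s.m (0, 0, i, j) = ext A i j) (δ : ℝ) (hδ : 0 < δ)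
    (ht : s.m (8, 0, 0, 0) = 0) (hσ : s.m (9, 0, 0, 0) = (δ / 2 : ℝ)) :
    (∃ t : ℝ, (cO.run s).m (8, 0, 0, 0) = t ∧ 0 ≤ t ∧ t ≤ δ ∧
      Real.log (GG R t (δ / 2 / 64 ^ s.v 5)) ≤ 3 * R.card / 2 ^ s.v 5) ∧
      (∀ p, p.1 < 3 → (cO.run s).m p = s.m p) ∧ (cO.run s).v 0 = n := by
  have := loop_inv 6 (.var 5)
    (.seq (st 9 (.div (sc 9) (.nat (.lit 64)))) (.seq cI (st 8 (sc 11)))) s (fun j u =>
    (∃ t : ℝ, u.m (8, 0, 0, 0) = t ∧ 0 ≤ t ∧ t + 2 * (δ / 2 / 64 ^ j) ≤ δ ∧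
      Real.log (GG R t (δ / 2 / 64 ^ j)) ≤ 3 * R.card / 2 ^ j) ∧
      u.m (9, 0, 0, 0) = (δ / 2 / 64 ^ j : ℝ) ∧ (∀ p, p.1 < 3 → u.m p = s.m p) ∧ u.v 0 = n)
    ⟨⟨0, by simpa using ht, le_rfl, by simp; linarith, by
      simpa using (log_GG_le R 0 (s := δ / 2) (by positivity)).2⟩, by simpa using hσ,
      fun _ _ => rfl, h0⟩ (by
      intro j _ u ⟨⟨t, h1, h2, h3, h4⟩, h5, h6, h7⟩
      simp only [Cmd.run]
      obtain ⟨a1, a2, a3⟩ := st_run 9 (.div (sc 9) (.nat (.lit 64)))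
        ⟨Function.update u.v 6 j, u.m, u.cost + 1⟩
      generalize (st 9 _).run _ = w at *
      simp only [CE.ev, NE.ev, sc, h5] at a1 a2 a3
      have hp : 0 < δ / 2 / 64 ^ j := by positivity
      have e : δ / 2 / 64 ^ (j + 1) = δ / 2 / 64 ^ j / 64 := by rw [pow_succ, div_div (δ / 2)]
      rw [e]
      generalize δ / 2 / 64 ^ j = σ at *
      have a2' : w.m (9, 0, 0, 0) = (σ / 64 : ℝ) := by rw [a2]; push_cast; rfl
      obtain ⟨⟨m0, hm0, b1, b2⟩, b3, b4⟩ := cI_spec hn hT hc hR w (by rw [a1]; simp [h7])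
        (fun i j => by rw [a3 _ (by simp), h6 _ (by simp), hA]) t (σ / 64)
        (by rw [a3 _ (by simp), h1]) a2'
      generalize cI.run w = y at *
      obtain ⟨c1, c2, c3⟩ := st_run 8 (sc 11) y
      generalize (st 8 _).run y = z at *
      simp only [CE.ev, NE.ev, sc, b1] at c2
      refine ⟨⟨_, c2, by positivity, ?_, ?_⟩, by rw [c3 _ (by simp), b3 _ (by simp), a2'],
        fun p hp => by rw [c3 p (by omega), b3 p (by omega), a3 p (by omega), h6 p hp],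
        by rw [c1, b4]⟩
      · have : (m0 : ℝ) ≤ 64 := by exact_mod_cast hm0.le
        nlinarith
      · obtain ⟨m, hm, hm'⟩ := GG_step R t hp
        have := Real.log_le_log (GG_pos R _ (by positivity)) (b2 m hm)
        rw [pow_succ, ← div_div]
        linarith)
  obtain ⟨⟨t, h1, h2, h3, h4⟩, -, h5, h6⟩ := this
  refine ⟨⟨t, h1, h2, ?_, h4⟩, h5, h6⟩
  have : 0 < δ / 2 / 64 ^ (NE.var 5).ev s.v := by positivity
  linarith

def cJ : Cmd := .seq (.set 4 (.lit 1)) (.seq (.loop 1 (.var 0)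
  (.test (.nat (.var 4)) (.nat (.var 1))
    (.seq (.set 4 (.add (.var 4) (.var 4))) (.set 5 (.add (.var 5) (.lit 1)))) (.set 2 (.lit 0))))
  (.set 5 (.add (.add (.var 5) (.var 5)) (.lit 3))))

lemma cJ_spec (s : St) (h5 : s.v 5 = 0) : (cJ.run s).m = s.m ∧ (cJ.run s).v 0 = s.v 0 ∧
    ∃ J, (cJ.run s).v 5 = J + J + 3 ∧ s.v 0 ≤ 2 ^ J ∧ 2 ^ J ≤ 2 * s.v 0 + 1 := by
  have := loop_inv 1 (.var 0) (.test (.nat (.var 4)) (.nat (.var 1))
    (.seq (.set 4 (.add (.var 4) (.var 4))) (.set 5 (.add (.var 5) (.lit 1)))) (.set 2 (.lit 0)))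
    ((Cmd.set 4 (.lit 1)).run s) (fun i u => u.m = s.m ∧ u.v 0 = s.v 0 ∧ u.v 4 = 2 ^ u.v 5 ∧
      i ≤ u.v 4 ∧ u.v 4 ≤ 2 * i + 1) (by simp [Cmd.run, NE.ev, h5]) (by
      intro i _ u ⟨h1, h2, h3, h4, h6⟩
      have hp : 0 < u.v 4 := by rw [h3]; positivity
      simp only [Cmd.run, CE.ev, NE.ev, Complex.natCast_re, Nat.cast_le]
      split_ifs with h
      · simp at h ⊢
        refine ⟨h1, h2, by rw [h3]; ring, by omega, by omega⟩
      · simp at h ⊢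
        refine ⟨h1, h2, h3, by omega, by omega⟩)
  have e : cJ.run s = (Cmd.set 5 (.add (.add (.var 5) (.var 5)) (.lit 3))).run
    ((Cmd.loop 1 (.var 0) (.test (.nat (.var 4)) (.nat (.var 1))
    (.seq (.set 4 (.add (.var 4) (.var 4))) (.set 5 (.add (.var 5) (.lit 1))))
    (.set 2 (.lit 0)))).run ((Cmd.set 4 (.lit 1)).run s)) := rfl
  rw [e]
  have e2 : (NE.var 0).ev ((Cmd.set 4 (.lit 1)).run s).v = s.v 0 := by simp [Cmd.run, NE.ev]
  rw [e2] at this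
  generalize (Cmd.loop _ _ _).run _ = u at *
  obtain ⟨h1, h2, h3, h4, h6⟩ := this
  refine ⟨h1, by simp [Cmd.run, h2], u.v 5, by simp [Cmd.run, NE.ev], h3 ▸ h4, h3 ▸ h6⟩

def cE : Cmd := .loop 1 (.var 0) (.put 2 (.lit 0) (.lit 0) (.var 1)
  (.mul (.div (sc 8) (sc 1)) (.div (.nat (.var 1)) (.nat (.var 0)))))

lemma cE_spec (s : St) : ∀ u < s.v 0, (cE.run s).m (2, 0, 0, u) =
    s.m (8, 0, 0, 0) / s.m (1, 0, 0, 0) * ((u : ℂ) / s.v 0) := by
  refine (loop_inv 1 (.var 0) _ s (fun i w => (∀ u < i, w.m (2, 0, 0, u) =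
    s.m (8, 0, 0, 0) / s.m (1, 0, 0, 0) * ((u : ℂ) / s.v 0)) ∧ (∀ p, p.1 ≠ 2 → w.m p = s.m p) ∧
    w.v 0 = s.v 0) ⟨fun u hu => absurd hu (Nat.not_lt_zero u), fun _ _ => rfl, rfl⟩ ?_).1
  intro i _ w ⟨h1, h2, h3⟩
  simp only [Cmd.run, CE.ev, NE.ev, sc, Function.update_self]
  refine ⟨fun u hu => ?_, fun p hp => ?_, by simp [h3]⟩
  · rcases Nat.lt_succ_iff_lt_or_eq.mp hu with h | h
    · rw [Function.update_of_ne (by simp; omega), h1 u h]
    · rw [h, Function.update_self, h2 _ (by simp), h2 _ (by simp)]; simp [h3]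
  · rw [Function.update_of_ne (fun e => hp (by rw [e])), h2 p hp]

def cR : Cmd := .seq (st 9 (.div (sc 1) (.nat (.lit 2)))) (.seq cO cE)

def prog : Cmd := .seq cJ cR

lemma cb_cJ (v : ℕ → ℕ) : cJ.cb v ≤ 20 + 20 * v 0 := by
  simp [cJ, Cmd.cb, NE.sz, CE.sz, NE.ev]; omega

lemma cb_cQ (v : ℕ → ℕ) (h : 1 ≤ v 0) : cQ.cb v ≤ 300 * v 0 ^ 3 := by
  simp only [cQ, cP, cS, cL, cD, layers, fill, row, x1, x2, x3, sc, Cmd.cb, NE.sz, CE.sz, NE.ev]
  generalize v 0 = n at *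
  have h2 : n ≤ n ^ 3 := Nat.le_self_pow (by simp) n
  have h3 : n ^ 2 ≤ n ^ 3 := Nat.pow_le_pow_right h (by simp)
  have h4 : 1 ≤ n ^ 3 := Nat.one_le_pow _ _ h
  ring_nf
  omega

lemma cb_cR (v : ℕ → ℕ) (h : 1 ≤ v 0) : cR.cb v ≤ 50000 * v 0 ^ 3 * (1 + v 5) := by
  have h1 := cb_cQ v h
  simp only [cR, cO, cI, cV, cU, cE, st, qq, sc, Cmd.cb, NE.sz, CE.sz, NE.ev]
  generalize cQ.cb v = q at *
  generalize v 0 = n at *
  generalize v 5 = J at *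
  have h2 : n ≤ n ^ 3 := Nat.le_self_pow (by simp) n
  have h4 : 1 ≤ n ^ 3 := Nat.one_le_pow _ _ h
  generalize n ^ 3 = N at *
  have h5 : J * q ≤ J * (300 * N) := Nat.mul_le_mul_left _ h1
  have h6 : J * 1 ≤ J * N := Nat.mul_le_mul_left _ h4
  nlinarith

end Pool.Agent.H.Ram
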